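import Pool.Agent.H42UP.Win

/-!
Few exponents: the powers `p ^ a` all of whose companions `p ^ a * q ^ b` in a window belong to a
small subset of the window.
-/

set_option autoImplicit false

namespace Pool.Agent.H42UP

open Finset
open Pool.Agent.W764.HL (win mem_win)

lemma few_exponents {p q : ℕ} (hp : 2 ≤ p) (hq : 2 ≤ q)
    (hirr : Irrational (Real.log p / Real.log q)) {H s : ℝ} (hs : 0 < s) (hs1 : s ≤ 1)
    (hH1 : 1 < H) (hH : Real.log q ≤ Real.log H) (Bd A : Finset ℕ)
    (hA : ∀ a ∈ A, (p : ℝ) ^ a ≤ 1 / s)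
    (hAB : ∀ a ∈ A, ∀ b, p ^ a * q ^ b ∈ win p q (1 / s) (H / s) → p ^ a * q ^ b ∈ Bd) :
    (A.card : ℝ) * (win p q (1 / s) (H / s)).card ≤
      2 * (Real.log (H / s) / Real.log p + 1) * Bd.card := by
  classical
  have hlp : 0 < Real.log p := Real.log_pos (by exact_mod_cast (by omega : 1 < p))
  have hlq : 0 < Real.log q := Real.log_pos (by exact_mod_cast (by omega : 1 < q))
  have hqR : (1 : ℝ) < q := by exact_mod_cast (by omega : 1 < q)
  have hpR : (1 : ℝ) < p := by exact_mod_cast (by omega : 1 < p)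
  have hH0 : 0 < H := by linarith
  have hex : ∀ a : ℕ, ∃ b : ℕ, 1 / s ≤ (p : ℝ) ^ a * (q : ℝ) ^ b := by
    intro a
    obtain ⟨b, hb⟩ := pow_unbounded_of_one_lt (1 / s) hqR
    refine ⟨b, hb.le.trans ?_⟩
    have h1 : (1 : ℝ) ≤ (p : ℝ) ^ a := one_le_pow₀ hpR.le
    have h2 : (0 : ℝ) < (q : ℝ) ^ b := by positivity
    nlinarith
  set β : ℕ → ℕ := fun a => Nat.find (hex a) with hβ
  have hβ1 : ∀ a, 1 / s ≤ (p : ℝ) ^ a * (q : ℝ) ^ (β a) := fun a => Nat.find_spec (hex a)
  have hβ2 : ∀ a b, b < β a → (p : ℝ) ^ a * (q : ℝ) ^ b < 1 / s := fun a b hb =>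
    not_le.1 (Nat.find_min (hex a) hb)
  have hβ3 : ∀ a b, 1 / s ≤ (p : ℝ) ^ a * (q : ℝ) ^ b → β a ≤ b := fun a b hb =>
    Nat.find_min' (hex a) hb
  set J : ℕ := ⌊Real.log H / Real.log q⌋₊ with hJ
  have hJ1 : 1 ≤ J := (Nat.one_le_floor_iff _).2 (by rw [one_le_div hlq]; exact hH)
  have hJle : (q : ℝ) ^ J ≤ H := by
    have h1 : (J : ℝ) ≤ Real.log H / Real.log q :=
      Nat.floor_le (div_nonneg (by linarith) hlq.le)
    rw [le_div_iff₀ hlq] at h1
    rw [← Real.log_le_log_iff (by positivity) hH0, Real.log_pow]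
    exact h1
  have hJlt : H < (q : ℝ) ^ (J + 1) := by
    have h1 : Real.log H / Real.log q < J + 1 := Nat.lt_floor_add_one _
    rw [div_lt_iff₀ hlq] at h1
    rw [← Real.log_lt_log_iff hH0 (by positivity), Real.log_pow]
    push_cast
    exact h1
  have hcast : ∀ a b : ℕ, ((p ^ a * q ^ b : ℕ) : ℝ) = (p : ℝ) ^ a * (q : ℝ) ^ b := by
    intro a b; push_cast; ring
  have hinj := Pool.Agent.W764.SH.pow_mul_inj hp hq hirr
  have hmapinj : Function.Injective fun u : ℕ × ℕ => p ^ u.1 * q ^ (β u.1 + u.2) := by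
    intro u v huv
    have h1 := @hinj (u.1, β u.1 + u.2) (v.1, β v.1 + v.2) huv
    rw [Prod.mk.injEq] at h1
    obtain ⟨h2, h3⟩ := h1
    rw [h2] at h3
    exact Prod.ext h2 (Nat.add_left_cancel h3)
  -- lower bound for the number of elements of `Bd`
  have hlow : A.card * J ≤ Bd.card := by
    have h1 : ((A ×ˢ range J).image fun u : ℕ × ℕ => p ^ u.1 * q ^ (β u.1 + u.2)) ⊆ Bd := by
      intro n hn
      rw [mem_image] at hn
      obtain ⟨⟨a, t⟩, h2, rfl⟩ := hn
      rw [mem_product, mem_range] at h2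
      obtain ⟨ha, ht⟩ := h2
      refine hAB a ha _ ((mem_win).2 ⟨⟨a, β a + t, rfl⟩, ?_, ?_⟩)
      · rw [hcast, pow_add, ← mul_assoc]
        have h3 : (1 : ℝ) ≤ (q : ℝ) ^ t := one_le_pow₀ hqR.le
        have h4 := hβ1 a
        have h5 : 0 < 1 / s := by positivity
        nlinarith
      · rw [hcast]
        have h6 : (q : ℝ) ^ (t + 1) ≤ H := le_trans (pow_le_pow_right₀ hqR.le ht) hJle
        rcases Nat.eq_zero_or_pos (β a) with h0 | h0
        · rw [h0, zero_add]
          have h3 := hA a ha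
          have h4 : (q : ℝ) ^ t < H := by
            refine lt_of_lt_of_le ?_ h6
            exact pow_lt_pow_right₀ hqR (Nat.lt_succ_self t)
          calc (p : ℝ) ^ a * (q : ℝ) ^ t ≤ 1 / s * (q : ℝ) ^ t := by gcongr
            _ < 1 / s * H := by gcongr
            _ = H / s := by ring
        · have h3 := hβ2 a (β a - 1) (by omega)
          have h4 : β a + t = (β a - 1) + (t + 1) := by omega
          rw [h4, pow_add, ← mul_assoc]
          calc (p : ℝ) ^ a * (q : ℝ) ^ (β a - 1) * (q : ℝ) ^ (t + 1) < 1 / s * (q : ℝ) ^ (t + 1) := by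
                gcongr
            _ ≤ 1 / s * H := by gcongr
            _ = H / s := by ring
    have h2 := card_le_card h1
    rwa [card_image_of_injective _ hmapinj, card_product, card_range] at h2
  -- upper bound for the window
  set A1 : ℕ := ⌊Real.log (H / s) / Real.log p⌋₊ + 1 with hA1
  have hup : (win p q (1 / s) (H / s)).card ≤ A1 * (J + 1) := by
    have h1 : win p q (1 / s) (H / s) ⊆
        (range A1 ×ˢ range (J + 1)).image fun u : ℕ × ℕ => p ^ u.1 * q ^ (β u.1 + u.2) := by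
      intro n hn
      obtain ⟨⟨a, b, rfl⟩, h2, h3⟩ := (mem_win).1 hn
      rw [hcast] at h2 h3
      have h4 := hβ3 a b h2
      rw [mem_image]
      refine ⟨(a, b - β a), ?_, ?_⟩
      · rw [mem_product, mem_range, mem_range]
        constructor
        · rw [hA1, Nat.lt_succ_iff]
          apply Nat.le_floor
          rw [le_div_iff₀ hlp, ← Real.log_pow]
          apply Real.log_le_log (by positivity)
          refine le_trans ?_ h3.le
          have h5 : (1 : ℝ) ≤ (q : ℝ) ^ b := one_le_pow₀ hqR.le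
          have h6 : (0 : ℝ) < (p : ℝ) ^ a := by positivity
          nlinarith
        · have h5 : b = β a + (b - β a) := by omega
          rw [h5, pow_add, ← mul_assoc] at h3
          have h6 : (q : ℝ) ^ (b - β a) < (q : ℝ) ^ (J + 1) := by
            refine lt_trans ?_ hJlt
            have h7 : 1 / s * (q : ℝ) ^ (b - β a) < H / s := lt_of_le_of_lt (by
              gcongr; exact hβ1 a) h3
            rw [div_mul_eq_mul_div, one_mul, div_lt_div_iff_of_pos_right hs] at h7
            exact h7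
          exact (pow_lt_pow_iff_right₀ hqR).1 h6
      · show p ^ a * q ^ (β a + (b - β a)) = _
        rw [Nat.add_sub_cancel' h4]
    have h2 := (card_le_card h1).trans card_image_le
    rwa [card_product, card_range, card_range] at h2
  have hA1le : (A1 : ℝ) ≤ Real.log (H / s) / Real.log p + 1 := by
    have h0 : 0 ≤ Real.log (H / s) := Real.log_nonneg (by
      rw [le_div_iff₀ hs]; linarith)
    rw [hA1]
    push_cast
    have := Nat.floor_le (show 0 ≤ Real.log (H / s) / Real.log p by positivity)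
    linarith
  have hlowR : (A.card : ℝ) * J ≤ Bd.card := by exact_mod_cast hlow
  have hupR : ((win p q (1 / s) (H / s)).card : ℝ) ≤ A1 * (J + 1) := by exact_mod_cast hup
  have hJR : (1 : ℝ) ≤ J := by exact_mod_cast hJ1
  have hA0 : (0 : ℝ) ≤ A.card := Nat.cast_nonneg _
  have hA10 : (0 : ℝ) ≤ A1 := Nat.cast_nonneg _
  calc (A.card : ℝ) * (win p q (1 / s) (H / s)).card ≤ A.card * (A1 * (J + 1)) := by gcongr
    _ ≤ A.card * (A1 * (J + J)) := by gcongr
    _ = 2 * A1 * (A.card * J) := by ring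
    _ ≤ 2 * A1 * Bd.card := by gcongr
    _ ≤ 2 * (Real.log (H / s) / Real.log p + 1) * Bd.card := by gcongr

end Pool.Agent.H42UP
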