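import Pool.Agent.H42UP.Good

/-!
The main estimate: the words in `p ^ a B` for most `a` with `p ^ a ≤ q ^ k`.
-/

set_option autoImplicit false

namespace Pool.Agent.H42UP

open Finset MeasureTheory Filter Topology
open Pool.Agent.H806.Gap
open Pool.Agent.W764.FB (T)
open Pool.Agent.W764.HL (win mem_win)
open Metric (closedBall mem_closedBall)

lemma lt_pow_len {q : ℕ} (hq : 2 ≤ q) (B : ℕ) : B < q ^ len q B := by
  obtain ⟨b, rfl⟩ : ∃ b, q = b + 2 := ⟨q - 2, by omega⟩
  exact Nat.lt_base_pow_length_digits (by omega)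

lemma len_mono {q : ℕ} {B C : ℕ} (h : B ≤ C) : len q B ≤ len q C :=
  Nat.le_length_digits_le q B C h

lemma unp_le_len (q k j : ℕ) (δ : ℝ) (B : ℕ) : unp q k j δ B ≤ len q B := by
  unfold unp
  exact (card_filter_le _ _).trans (card_range _).le

theorem core {p q : ℕ} (hp : 2 ≤ p) (hq : 2 ≤ q) (hirr : Irrational (Real.log p / Real.log q))
    {g : ℝ → ℝ} (hg : Tendsto g atTop atTop) (hdio : Dio (Real.log p) (Real.log q) g) (A m : ℕ)
    {ε : ℝ} (hε : 0 < ε) : ∃ δ : ℝ, 0 < δ ∧ δ ≤ 1 ∧ ∃ k₀ : ℕ, ∀ k, k₀ ≤ k → ∀ j, j ≤ k →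
      (q : ℝ) ^ j ≤ g (Real.log q * ((k + j : ℕ) : ℝ)) ^ A →
      ∃ N₀ : ℕ, ∀ B : ℕ, N₀ ≤ len q B →
        (((range (Nat.log p (q ^ k) + 1)).filter fun a => ¬ ∀ w < q ^ m,
          (unp q k j δ B : ℝ) / ((q ^ m : ℕ) : ℝ) - ε * len q B ≤ occ q m w (p ^ a * B)).card : ℝ) ≤
            ε * k := by
  classical
  have hlp : 0 < Real.log p := Real.log_pos (by exact_mod_cast (by omega : 1 < p))
  have hlq : 0 < Real.log q := Real.log_pos (by exact_mod_cast (by omega : 1 < q))
  have hqR : (1 : ℝ) < q := by exact_mod_cast (by omega : 1 < q)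
  have hq0 : 0 < q := by omega
  set Q : ℕ := q ^ m with hQ
  have hQ1 : 1 ≤ Q := Nat.one_le_pow _ _ hq0
  have hQR : (1 : ℝ) ≤ Q := by exact_mod_cast hQ1
  set ε1 : ℝ := min ε (1 / Q) / 8 with hε1
  have hQinv : 0 < 1 / (Q : ℝ) := by positivity
  have hε10 : 0 < ε1 := by positivity
  have hε1ε : 8 * ε1 ≤ ε := by
    rw [hε1]; have := min_le_left ε (1 / (Q : ℝ)); linarith
  have hε1Q : ε1 ≤ 1 / Q := by
    rw [hε1]; have := min_le_right ε (1 / (Q : ℝ)); linarith
  set ε2 : ℝ := ε1 * ε / (4 * (3 * Real.log q / Real.log p + 1)) with hε2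
  have hε20 : 0 < ε2 := by positivity
  obtain ⟨K, hK⟩ := exists_nat_ge (2 * Q / (ε1 ^ 2 * ε2) + 1)
  have hKR : (0 : ℝ) < K := lt_of_lt_of_le (by positivity) hK
  have hK1 : 1 ≤ K := by exact_mod_cast hKR
  set S : Finset ℕ := badW Q K ε1 with hS
  obtain ⟨G, hGc, hG0, hG1, hGint⟩ := exists_major (q ^ (m * K)) (Nat.one_le_pow _ _ hq0) S
  have hGint' : ∫ y, G y ∂(volume : Measure T) ≤ ε2 := by
    refine hGint.trans ?_
    have h1 := card_badW (Q := Q) hK1 hε10
    have h2 : ((q ^ (m * K) : ℕ) : ℝ) = (Q : ℝ) ^ K := by rw [hQ, pow_mul]; push_cast; ring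
    rw [h2, div_le_iff₀ (by positivity)]
    calc 2 * (S.card : ℝ) ≤ 2 * (Q * ((Q : ℝ) ^ K / (ε1 ^ 2 * K))) := by gcongr
      _ = (2 * Q / (ε1 ^ 2 * ε2)) * (ε2 / K) * (Q : ℝ) ^ K := by field_simp
      _ ≤ K * (ε2 / K) * (Q : ℝ) ^ K := by gcongr; linarith
      _ = ε2 * (Q : ℝ) ^ K := by field_simp
  have hGint0 : 0 ≤ ∫ y, G y ∂(volume : Measure T) := integral_nonneg hG0
  obtain ⟨δ', hδ', H, hH1, hHq, r0, hr0, hmain⟩ :=
    single_scale_win hp hq hirr hg hdio A hGc hε20 (Real.log q)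
  have hH0 : 0 < H := by linarith
  set η : ℝ := min (min (δ' / 3) ε1) 1 with hη
  have hη0 : 0 < η := by positivity
  have hη1 : η ≤ 1 := min_le_right _ _
  have hηδ : 3 * η ≤ δ' := by
    have : η ≤ δ' / 3 := (min_le_left _ _).trans (min_le_left _ _)
    linarith
  have hηε : η ≤ ε1 := (min_le_left _ _).trans (min_le_right _ _)
  have hsq : √(η ^ 2) = η := Real.sqrt_sq hη0.le
  obtain ⟨k1, hk1⟩ := exists_nat_ge (Real.log H / Real.log q)
  obtain ⟨k2, hk2⟩ := pow_unbounded_of_one_lt (1 / r0) hqR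
  refine ⟨η ^ 2, by positivity, pow_le_one₀ hη0.le hη1, m * K + k1 + k2 + 1,
    fun k hk j hjk hgj => ?_⟩
  have hkK : m * K ≤ k := by omega
  have hkR : (1 : ℝ) ≤ k := by exact_mod_cast (by omega : 1 ≤ k)
  have hkH : Real.log H ≤ k * Real.log q := by
    rw [div_le_iff₀ hlq] at hk1
    refine hk1.trans ?_
    have : (k1 : ℝ) ≤ k := by exact_mod_cast (by omega : k1 ≤ k)
    gcongr
  obtain ⟨N₀, hN₀⟩ := exists_nat_ge (5 * k / ε1)
  refine ⟨N₀ + 3 * k + 1, fun B hB => ?_⟩
  set N := len q B with hN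
  have hN1 : 1 ≤ N := by omega
  have hNR : (1 : ℝ) ≤ N := by exact_mod_cast hN1
  have hN5 : 5 * (k : ℝ) ≤ ε1 * N := by
    rw [div_le_iff₀ hε10] at hN₀
    have h1 : (N₀ : ℝ) ≤ N := by exact_mod_cast (by omega : N₀ ≤ N)
    nlinarith
  set h : ℕ := k + j with hh
  have hh2k : h ≤ 2 * k := by omega
  set s : ℝ := 1 / (q : ℝ) ^ h with hs
  set r : ℝ := 1 / (q : ℝ) ^ k with hr
  have hs0 : 0 < s := by positivity
  have hs1 : s ≤ 1 := by
    rw [hs, div_le_one (by positivity)]; exact one_le_pow₀ hqR.le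
  have hsr : s ≤ r := by
    rw [hs, hr]
    exact one_div_le_one_div_of_le (by positivity) (pow_le_pow_right₀ hqR.le (by omega))
  have hrr0 : r < r0 := by
    rw [hr, div_lt_comm₀ (by positivity) hr0]
    exact hk2.trans_le (pow_le_pow_right₀ hqR.le (by omega))
  have hlogs : -Real.log s = Real.log q * (h : ℝ) := by
    rw [hs, one_div, Real.log_inv, neg_neg, Real.log_pow]; ring
  have hrs : r ≤ g (-Real.log s) ^ A * s := by
    rw [hlogs]
    have h1 : r = (q : ℝ) ^ j * s := by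
      rw [hr, hs, hh, pow_add]; field_simp
    rw [h1]
    gcongr
  have h1s : 1 / s = (q : ℝ) ^ h := by rw [hs, one_div_one_div]
  obtain ⟨hne, hW⟩ := hmain r s hs0 hsr hrr0 hrs
  set W := win p q (1 / s) (H / s) with hWdef
  have hWpos : (0 : ℝ) < W.card := by exact_mod_cast card_pos.2 hne
  have := unif_prob hN1 (pt q h B)
  set μ := unif N (pt q h B) with hμ
  set E : Set T := {x : T | μ.real (closedBall x (1 / (q : ℝ) ^ h)) ≤
      δ' * μ.real (closedBall x (1 / (q : ℝ) ^ k))} with hE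
  have hEm : MeasurableSet E := by
    exact measurableSet_le (measurable_ball μ _).ennreal_toReal
      ((measurable_ball μ _).ennreal_toReal.const_mul _)
  have hkey := hW μ inferInstance E hEm (fun x hx => hx)
  have hkey2 : ∫ y in E, AW W G y ∂μ ≤ 2 * ε2 := by
    have h1 := (abs_le.1 hkey).2
    have h2 : μ.real E * ∫ y, G y ∂(volume : Measure T) ≤ 1 * ε2 := by
      have : μ.real E ≤ 1 := measureReal_le_one
      have h0 : 0 ≤ μ.real E := measureReal_nonneg
      gcongr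
    linarith
  set I : Finset ℕ := (range N).filter fun i => pt q h B i ∈ E with hI
  rw [unif_setIntegral _ hEm, div_le_iff₀ (by linarith)] at hkey2
  have hkey3 : ∑ n ∈ W, ∑ i ∈ I, G (n • pt q h B i) ≤ 2 * ε2 * N * W.card := by
    have h1 : ∑ i ∈ I, AW W G (pt q h B i) =
        (W.card : ℝ)⁻¹ * ∑ n ∈ W, ∑ i ∈ I, G (n • pt q h B i) := by
      unfold AW
      rw [← mul_sum, sum_comm]
    rw [← hI, h1] at hkey2
    calc ∑ n ∈ W, ∑ i ∈ I, G (n • pt q h B i) =
        (W.card : ℝ)⁻¹ * (∑ n ∈ W, ∑ i ∈ I, G (n • pt q h B i)) * W.card := by field_simp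
      _ ≤ 2 * ε2 * N * W.card := by gcongr
  set Bd : Finset ℕ := W.filter fun n => ε1 * N < ∑ i ∈ I, G (n • pt q h B i) with hBd
  have hBdcard : (Bd.card : ℝ) ≤ 2 * ε2 / ε1 * W.card := by
    have h1 : (Bd.card : ℝ) * (ε1 * N) ≤ ∑ n ∈ W, ∑ i ∈ I, G (n • pt q h B i) := by
      rw [← nsmul_eq_mul]
      refine (card_nsmul_le_sum Bd (fun n => ∑ i ∈ I, G (n • pt q h B i)) _ fun n hn =>
        (mem_filter.1 hn).2.le).trans ?_
      exact sum_le_sum_of_subset_of_nonneg (filter_subset _ _) fun n _ _ =>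
        sum_nonneg fun i _ => hG0 _
    have h2 := h1.trans hkey3
    have hεN : 0 < ε1 * (N : ℝ) := by positivity
    rw [← le_div_iff₀ hεN] at h2
    refine h2.trans (le_of_eq ?_)
    have : (N : ℝ) ≠ 0 := by positivity
    field_simp
  set Ab : Finset ℕ := (range (Nat.log p (q ^ k) + 1)).filter fun a => ¬ ∀ w < Q,
    (unp q k j (η ^ 2) B : ℝ) / (Q : ℝ) - ε * N ≤ occ q m w (p ^ a * B) with hAb
  have hfew := few_exponents hp hq hirr hs0 hs1 hH1 hHq Bd Ab (by
    intro a ha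
    rw [hAb, mem_filter, mem_range, Nat.lt_succ_iff] at ha
    rw [h1s]
    have h1 : p ^ a ≤ q ^ k := Nat.pow_le_of_le_log (Nat.pow_pos hq0).ne' ha.1
    have h2 : p ^ a ≤ q ^ h := h1.trans (Nat.pow_le_pow_right hq0 (by omega))
    exact_mod_cast h2) (by
    intro a ha b hab
    rw [hAb, mem_filter] at ha
    by_contra hcon
    apply ha.2
    have hnB : ∑ i ∈ I, G ((p ^ a * q ^ b) • pt q h B i) ≤ ε1 * N := by
      by_contra h1
      exact hcon (mem_filter.2 ⟨hab, not_le.1 h1⟩)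
    have hn2 := ((mem_win).1 hab).2.2
    -- the size of `b`
    have hbk : b ≤ 3 * k := by
      have h1 : (q : ℝ) ^ b < H * (q : ℝ) ^ h := by
        have h2 : H / s = H * (q : ℝ) ^ h := by rw [hs]; field_simp
        rw [h2] at hn2
        refine lt_of_le_of_lt ?_ hn2
        push_cast
        have : (1 : ℝ) ≤ (p : ℝ) ^ a := one_le_pow₀ (by exact_mod_cast (by omega : 1 ≤ p))
        have h3 : (0 : ℝ) < (q : ℝ) ^ b := by positivity
        nlinarith
      have h2 : H ≤ (q : ℝ) ^ k := by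
        rw [← Real.log_le_log_iff hH0 (by positivity), Real.log_pow]
        exact hkH
      have h3 : (q : ℝ) ^ b < (q : ℝ) ^ (k + h) := by
        refine h1.trans_le ?_
        rw [pow_add (q : ℝ) k h]
        exact mul_le_mul_of_nonneg_right h2 (by positivity)
      have h4 : b < k + h := (pow_lt_pow_iff_right₀ hqR).1 h3
      omega
    set C : ℕ := p ^ a * B with hC
    have hBC : B ≤ C := Nat.le_mul_of_pos_left B (Nat.pow_pos (by omega))
    have hlen : N ≤ len q C := len_mono hBC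
    have hpt : ∀ i, b ≤ i → (p ^ a * q ^ b) • pt q h B i =
        (((C : ℝ) / (q : ℝ) ^ (i + h - b) : ℝ) : T) := by
      intro i hi
      unfold pt
      rw [← AddCircle.coe_nsmul, nsmul_eq_mul]
      congr 1
      have h1 : i + h = (i + h - b) + b := by omega
      rw [h1, pow_add, hC]
      push_cast
      have : (0 : ℝ) < (q : ℝ) ^ b := by positivity
      rw [show i + h - b + b - b = i + h - b by omega]
      field_simp
    have hbad : ((I.filter fun i => b ≤ i ∧ C / q ^ (i + h - b - m * K) % q ^ (m * K) ∈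
        badW (q ^ m) K ε1).card : ℝ) ≤ ε1 * N := by
      refine le_trans ?_ hnB
      have h1 : ((I.filter fun i => b ≤ i ∧ C / q ^ (i + h - b - m * K) % q ^ (m * K) ∈
          badW (q ^ m) K ε1).card : ℝ) ≤ ∑ i ∈ I.filter fun i => b ≤ i ∧
          C / q ^ (i + h - b - m * K) % q ^ (m * K) ∈ badW (q ^ m) K ε1,
          G ((p ^ a * q ^ b) • pt q h B i) := by
        have h2 := card_nsmul_le_sum (I.filter fun i => b ≤ i ∧
          C / q ^ (i + h - b - m * K) % q ^ (m * K) ∈ badW (q ^ m) K ε1)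
          (fun i => G ((p ^ a * q ^ b) • pt q h B i)) 1 (by
            intro i hi
            rw [mem_filter] at hi
            obtain ⟨_, hi2, hi3⟩ := hi
            rw [hpt i hi2]
            refine hG1 _ hi3 _ ?_
            exact digit_arc hq C (e := i + h - b) (l := m * K) (by omega))
        rwa [nsmul_eq_mul, mul_one] at h2
      exact h1.trans (sum_le_sum_of_subset_of_nonneg (filter_subset _ _) fun i _ _ => hG0 _)
    intro w hw
    have hgood := good_count (h := h) hK1 hlen (by omega) hε1Q (filter_subset _ _) hbad hw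
    have hU := unp_le hq k j B hN1 (δ := η ^ 2) (δ' := δ') (by positivity)
      (pow_le_one₀ hη0.le hη1) (by rw [hsq]; exact hηδ)
    rw [hsq] at hU
    have hU' : (unp q k j (η ^ 2) B : ℝ) ≤ I.card + 2 * η * N := hU
    have hUN : (unp q k j (η ^ 2) B : ℝ) ≤ N := by exact_mod_cast unp_le_len _ _ _ _ _
    have hbR : (b : ℝ) ≤ 3 * k := by exact_mod_cast hbk
    have hhR : (h : ℝ) ≤ 2 * k := by exact_mod_cast hh2k
    set U : ℝ := (unp q k j (η ^ 2) B : ℝ) with hUdef
    have hU0 : 0 ≤ U := Nat.cast_nonneg _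
    have hN0 : (0 : ℝ) ≤ N := by linarith
    have hd0 : 0 ≤ 1 / (Q : ℝ) - ε1 := by linarith
    have hd1 : 1 / (Q : ℝ) - ε1 ≤ 1 := by
      have : 1 / (Q : ℝ) ≤ 1 := by rw [div_le_one (by positivity)]; exact hQR
      linarith
    have h2η : 2 * η * (N : ℝ) ≤ 2 * ε1 * N := by gcongr
    have h3 : U - 2 * ε1 * N - b - ε1 * N ≤ (I.card : ℝ) - b - ε1 * N := by linarith
    have h4 : (1 / (Q : ℝ) - ε1) * (U - 2 * ε1 * N - b - ε1 * N) ≤ occ q m w C + h :=
      (mul_le_mul_of_nonneg_left h3 hd0).trans hgood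
    have h5 : U / Q - ε1 * N - (3 * ε1 * N + b) ≤
        (1 / (Q : ℝ) - ε1) * (U - 2 * ε1 * N - b - ε1 * N) := by
      have e1 : (1 / (Q : ℝ) - ε1) * (U - 2 * ε1 * N - b - ε1 * N) =
          U / Q - ε1 * U - (1 / (Q : ℝ) - ε1) * (3 * ε1 * N + b) := by ring
      rw [e1]
      have h6 : ε1 * U ≤ ε1 * N := by gcongr
      have h7 : (1 / (Q : ℝ) - ε1) * (3 * ε1 * N + b) ≤ 1 * (3 * ε1 * N + b) := by
        gcongr
      linarith
    have h6 : 8 * ε1 * (N : ℝ) ≤ ε * N := by gcongr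
    linarith)
  -- conclusion
  have hlogHs : Real.log (H / s) / Real.log p + 1 ≤ (3 * Real.log q / Real.log p + 1) * k := by
    have h1 : Real.log (H / s) = Real.log H + Real.log q * h := by
      rw [Real.log_div hH0.ne' hs0.ne', ← hlogs]; ring
    have h2 : Real.log (H / s) ≤ 3 * Real.log q * k := by
      rw [h1]
      have h3 : (h : ℝ) ≤ 2 * k := by exact_mod_cast hh2k
      nlinarith
    have h3 : Real.log (H / s) / Real.log p ≤ 3 * Real.log q / Real.log p * k := by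
      rw [div_mul_eq_mul_div, div_le_div_iff_of_pos_right hlp]
      exact h2
    linarith
  have hfin : (Ab.card : ℝ) * W.card ≤ ε * k * W.card := by
    calc (Ab.card : ℝ) * W.card ≤ 2 * (Real.log (H / s) / Real.log p + 1) * Bd.card := hfew
      _ ≤ 2 * ((3 * Real.log q / Real.log p + 1) * k) * (2 * ε2 / ε1 * W.card) := by gcongr
      _ = ε * k * W.card := by
        rw [hε2]
        have : 0 < 3 * Real.log q / Real.log p + 1 := by positivity
        field_simp
        ring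
  exact le_of_mul_le_mul_right hfin hWpos

end Pool.Agent.H42UP
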