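import Mathlib

/-!
Words and unpredictable places in the base `q` expansions of integers.

The places of a positive integer `B` are the numbers `i < len q B`; the digit at the place `i` is
the coefficient of `q ^ i` (so the places are counted from the right). Where digits at places
`≥ len q B` are needed they are `0`.
-/

set_option autoImplicit false

namespace Pool.Agent.H42UP

open Finset Filter Topology

/-- the number of the base `q` digits of `B` -/
def len (q B : ℕ) : ℕ := (Nat.digits q B).length

/-- the number of the places `i` of `B` at which the word of `m` digits with the value `w` stands,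
that is, for which the digits at the places `i + m - 1, …, i` form this word -/
def occ (q m w B : ℕ) : ℕ := ((range (len q B)).filter fun i => B / q ^ i % q ^ m = w).card

/-- the number of the places `i'` of `B` for which the digits at the places
`i' + l - 1, …, i'` are the same as those at the places `i + l - 1, …, i` -/
def sameWord (q l B i : ℕ) : ℕ :=
  ((range (len q B)).filter fun i' => B / q ^ i' % q ^ l = B / q ^ i % q ^ l).card

/-- the number of the places `i'` of `B` with the same context as `i`: the digits at the places
`i' + j + k - 1, …, i' + j` are the same as those at the places `i + j + k - 1, …, i + j` -/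
def sameContext (q k j B i : ℕ) : ℕ :=
  ((range (len q B)).filter fun i' => B / q ^ (i' + j) % q ^ k = B / q ^ (i + j) % q ^ k).card

/-- the number of the `δ`-unpredictable places of `B` at the scale `(k, j)`: the places `i` such
that, among the places `i'` with the same context of `k` digits (at `i' + j + k - 1, …, i' + j`) as
`i`, at most the proportion `δ` has also the same next `j` digits (at `i' + j - 1, …, i'`) -/
noncomputable def unp (q k j : ℕ) (δ : ℝ) (B : ℕ) : ℕ :=
  ((range (len q B)).filter fun i =>
    (sameWord q (k + j) B i : ℝ) ≤ δ * sameContext q k j B i).card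

/-- all words of `m` digits have the frequency `q ^ (-m)` in `B`, up to an error `ε` -/
def Balanced (q m : ℕ) (ε : ℝ) (B : ℕ) : Prop :=
  ∀ w < q ^ m, |(occ q m w B : ℝ) - (len q B : ℝ) / (q : ℝ) ^ m| ≤ ε * len q B

/-- `S` has natural density zero -/
def DensityZero (S : Set ℕ) : Prop :=
  Tendsto (fun M : ℕ => ({n : ℕ | n < M ∧ n ∈ S}.ncard : ℝ) / M) atTop (𝓝 0)

/-- the scales: at most (a constant times) `√(log k)` digits after a context of `k` digits; for
the numbers `2` and `3` even (a constant times) `log k` digits -/
def Scale (p q A k j : ℕ) : Prop :=
  (q : ℝ) ^ j ≤ Real.exp (A * √(Real.log k)) ∨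
    ((p = 2 ∧ q = 3 ∨ p = 3 ∧ q = 2) ∧ (q : ℝ) ^ j ≤ (k : ℝ) ^ A)

end Pool.Agent.H42UP
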