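import Pool.Agent.H42UP.Scale

/-!
The equivalence for the powers.
-/

set_option autoImplicit false

namespace Pool.Agent.H42UP

open Finset Filter Topology

lemma cnt_avg (Bad : ℕ → Prop) [DecidablePred Bad] (X M : ℕ) :
    X * ((range M).filter Bad).card ≤
      ∑ n ∈ range M, ((range X).filter fun a => Bad (n + a)).card + X * X := by
  have h1 : ∑ n ∈ range M, ((range X).filter fun a => Bad (n + a)).card =
      ∑ a ∈ range X, ((range M).filter fun n => Bad (n + a)).card := by
    simp_rw [card_filter]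
    rw [sum_comm]
  have h2 : ∀ a ∈ range X, ((range M).filter Bad).card ≤
      ((range M).filter fun n => Bad (n + a)).card + X := by
    intro a ha
    rw [mem_range] at ha
    have h3 : (range M).filter Bad ⊆
        range a ∪ ((range M).filter fun n => Bad (n + a)).image (fun n => n + a) := by
      intro n hn
      rw [mem_filter, mem_range] at hn
      rw [mem_union, mem_range, mem_image]
      by_cases h4 : n < a
      · exact Or.inl h4
      · refine Or.inr ⟨n - a, ?_, by omega⟩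
        rw [mem_filter, mem_range, Nat.sub_add_cancel (by omega)]
        exact ⟨by omega, hn.2⟩
    refine (card_le_card h3).trans ((card_union_le _ _).trans ?_)
    rw [card_range]
    have := card_image_le (s := (range M).filter fun n => Bad (n + a)) (f := fun n => n + a)
    omega
  have h3 := sum_le_sum h2
  rw [sum_const, card_range, smul_eq_mul, sum_add_distrib, sum_const, card_range,
    smul_eq_mul] at h3
  rw [h1]
  exact h3

open Classical in
lemma ncard_eq (S : Set ℕ) (M : ℕ) :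
    {n : ℕ | n < M ∧ n ∈ S}.ncard = ((range M).filter fun n => n ∈ S).card := by
  rw [← Set.ncard_coe_finset]
  congr 1
  ext n
  simp

open Classical in
lemma ncard_eq' (P : ℕ → Prop) (M : ℕ) :
    {n : ℕ | n < M ∧ P n}.ncard = ((range M).filter P).card := by
  rw [← Set.ncard_coe_finset]
  congr 1
  ext n
  simp

open Classical in
lemma densityZero_iff (S : Set ℕ) : DensityZero S ↔ ∀ ε : ℝ, 0 < ε → ∀ᶠ M : ℕ in atTop,
    (((range M).filter fun n => n ∈ S).card : ℝ) ≤ ε * M := by
  unfold DensityZero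
  simp_rw [ncard_eq]
  constructor
  · intro h ε hε
    filter_upwards [h.eventually_lt_const hε, eventually_ge_atTop 1] with M h1 h2
    have h3 : (0 : ℝ) < M := by exact_mod_cast h2
    rw [div_lt_iff₀ h3] at h1
    exact h1.le
  · intro h
    rw [Metric.tendsto_atTop]
    intro ε hε
    obtain ⟨M₀, h1⟩ := eventually_atTop.1 (h (ε / 2) (by positivity))
    refine ⟨M₀ + 1, fun M hM => ?_⟩
    have h2 := h1 M (by omega)
    have h3 : (0 : ℝ) < M := by exact_mod_cast (by omega : 0 < M)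
    rw [Real.dist_eq, sub_zero, abs_of_nonneg (by positivity), div_lt_iff₀ h3]
    nlinarith

open Classical in
lemma DensityZero.cover {S S' S'' : Set ℕ} {n₀ : ℕ} (h' : DensityZero S') (h'' : DensityZero S'')
    (h : ∀ n, n₀ ≤ n → n ∈ S → n ∈ S' ∨ n ∈ S'') : DensityZero S := by
  rw [densityZero_iff] at h' h'' ⊢
  intro ε hε
  have h3 : ∀ᶠ M : ℕ in atTop, (n₀ : ℝ) / (ε / 3) ≤ M :=
    tendsto_natCast_atTop_atTop.eventually_ge_atTop _
  filter_upwards [h' (ε / 3) (by positivity), h'' (ε / 3) (by positivity), h3] with M h1 h2 h4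
  rw [div_le_iff₀ (by positivity)] at h4
  have h5 : (range M).filter (fun n => n ∈ S) ⊆ range n₀ ∪
      (((range M).filter fun n => n ∈ S') ∪ ((range M).filter fun n => n ∈ S'')) := by
    intro n hn
    rw [mem_filter] at hn
    rw [mem_union, mem_union, mem_filter, mem_filter, mem_range]
    by_cases h6 : n < n₀
    · exact Or.inl h6
    · rcases h n (by omega) hn.2 with h7 | h7
      · exact Or.inr (Or.inl ⟨hn.1, h7⟩)
      · exact Or.inr (Or.inr ⟨hn.1, h7⟩)
  have h6 := (card_le_card h5).trans ((card_union_le _ _).trans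
    (Nat.add_le_add_left (card_union_le _ _) _))
  rw [card_range] at h6
  have h7 : (((range M).filter fun n => n ∈ S).card : ℝ) ≤ n₀ +
      (((range M).filter fun n => n ∈ S').card + ((range M).filter fun n => n ∈ S'').card) := by
    exact_mod_cast h6
  linarith

lemma occ_le_context {q : ℕ} (k j B i : ℕ) :
    occ q k (B / q ^ (i + j) % q ^ k) B ≤ sameContext q k j B i + j := by
  classical
  unfold occ sameContext
  have h1 : ((range (len q B)).filter fun i' => B / q ^ i' % q ^ k = B / q ^ (i + j) % q ^ k) ⊆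
      range j ∪ ((range (len q B)).filter fun i' =>
        B / q ^ (i' + j) % q ^ k = B / q ^ (i + j) % q ^ k).image (fun i' => i' + j) := by
    intro n hn
    rw [mem_filter, mem_range] at hn
    rw [mem_union, mem_range, mem_image]
    by_cases h4 : n < j
    · exact Or.inl h4
    · refine Or.inr ⟨n - j, ?_, by omega⟩
      rw [mem_filter, mem_range, Nat.sub_add_cancel (by omega)]
      exact ⟨by omega, hn.2⟩
  refine (card_le_card h1).trans ((card_union_le _ _).trans ?_)
  rw [card_range, add_comm]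
  exact Nat.add_le_add_right card_image_le _

/-- balanced integers have unpredictable places only -/
lemma all_unp {q : ℕ} (hq : 2 ≤ q) {k j B : ℕ} {δ : ℝ} (hδ : 0 < δ) (hδj : 2 ≤ δ * (q : ℝ) ^ j)
    (h1 : Balanced q (k + j) (1 / (8 * (q : ℝ) ^ (k + j))) B)
    (h2 : Balanced q k (1 / (8 * (q : ℝ) ^ (k + j))) B)
    (hN : 2 * δ * j * (q : ℝ) ^ (k + j) ≤ len q B) : unp q k j δ B = len q B := by
  unfold unp
  rw [filter_true_of_mem, card_range]
  intro i _
  have hq0 : 0 < q := by omega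
  have hqR : (1 : ℝ) ≤ q := by exact_mod_cast (by omega : 1 ≤ q)
  set N : ℝ := (len q B : ℝ) with hNdef
  have hN0 : 0 ≤ N := Nat.cast_nonneg _
  set P : ℝ := (q : ℝ) ^ k with hP
  set J : ℝ := (q : ℝ) ^ j with hJ
  have hP0 : 0 < P := by positivity
  have hJ0 : 0 < J := by positivity
  have hJ1 : 1 ≤ J := one_le_pow₀ hqR
  have hPJ : (q : ℝ) ^ (k + j) = P * J := pow_add _ _ _
  rw [hPJ] at h1 h2 hN
  have g1 := h1 (B / q ^ i % q ^ (k + j)) (Nat.mod_lt _ (Nat.pow_pos hq0))
  have g2 := h2 (B / q ^ (i + j) % q ^ k) (Nat.mod_lt _ (Nat.pow_pos hq0))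
  rw [hPJ] at g1
  have g3 := (abs_le.1 g1).2
  have g4 := (abs_le.1 g2).1
  have g5 : (occ q (k + j) (B / q ^ i % q ^ (k + j)) B : ℝ) = sameWord q (k + j) B i := rfl
  have g6 : (occ q k (B / q ^ (i + j) % q ^ k) B : ℝ) ≤ sameContext q k j B i + j := by
    exact_mod_cast occ_le_context k j B i
  rw [g5] at g3
  set x : ℝ := N / (P * J) with hx
  have hx0 : 0 ≤ x := by positivity
  have e1 : 1 / (8 * (P * J)) * N = x / 8 := by rw [hx]; field_simp
  have e2 : N / P = x * J := by rw [hx]; field_simp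
  rw [e1] at g3 g4
  rw [e2] at g4
  have hN' : 2 * δ * j ≤ x := by
    rw [hx, le_div_iff₀ (by positivity)]; linarith
  have h3 : (sameWord q (k + j) B i : ℝ) ≤ 9 / 8 * x := by linarith
  have h4 : 7 / 8 * (x * J) - j ≤ sameContext q k j B i := by
    have : x ≤ x * J := le_mul_of_one_le_right hx0 hJ1
    linarith
  have h5 : δ * (7 / 8 * (x * J) - j) ≤ δ * sameContext q k j B i := by gcongr
  have h6 : 2 * x ≤ δ * J * x := by gcongr
  nlinarith

open Classical in
/-- the lower bound for the frequencies, for almost all powers -/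
theorem dens_lower {p q : ℕ} (hp : 2 ≤ p) (hq : 2 ≤ q)
    (hpq : ∀ x y : ℕ, 0 < x → 0 < y → p ^ x ≠ q ^ y) {u A : ℕ} (hu : 1 ≤ u) {c₀ : ℝ} (hc₀ : 0 ≤ c₀)
    (hc₁ : c₀ ≤ 1)
    (h : ∀ δ : ℝ, 0 < δ → ∃ᶠ k : ℕ in atTop, ∃ j : ℕ, Scale p q A k j ∧ ∀ᶠ M : ℕ in atTop,
        ({n : ℕ | n < M ∧ ∀ n' : ℕ, n ≤ n' → (n' : ℝ) < n + δ * k →
          (unp q k j δ (u * p ^ n') : ℝ) < (c₀ - δ) * len q (u * p ^ n')}.ncard : ℝ) ≤ δ * M)
    (m : ℕ) {ε : ℝ} (hε : 0 < ε) : DensityZero {n | ∃ w < q ^ m,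
      (occ q m w (u * p ^ n) : ℝ) < (c₀ / (q : ℝ) ^ m - ε) * len q (u * p ^ n)} := by
  have hirr := irr_of_indep hp hq hpq
  have hlp : 0 < Real.log p := Real.log_pos (by exact_mod_cast (by omega : 1 < p))
  have hlq : 0 < Real.log q := Real.log_pos (by exact_mod_cast (by omega : 1 < q))
  have hqR : (1 : ℝ) < q := by exact_mod_cast (by omega : 1 < q)
  have hq0 : 0 < q := by omega
  rw [densityZero_iff]
  intro ε3 hε3
  set Q : ℕ := q ^ m with hQ
  have hQ1 : 1 ≤ Q := Nat.one_le_pow _ _ hq0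
  have hQR : (1 : ℝ) ≤ Q := by exact_mod_cast hQ1
  set c : ℝ := Real.log p / Real.log q with hc
  have hc0 : 0 < c := by positivity
  set ε4 : ℝ := min (ε / (4 * Q)) (ε3 / (2 * (2 * c + 1))) with hε4
  have hε40 : 0 < ε4 := by positivity
  have hε4a : (Q : ℝ) * (4 * ε4) ≤ ε := by
    have : ε4 ≤ ε / (4 * Q) := min_le_left _ _
    rw [le_div_iff₀ (by positivity)] at this
    linarith
  have hε4b : ε4 * (2 * c + 1) ≤ ε3 / 2 := by
    have : ε4 ≤ ε3 / (2 * (2 * c + 1)) := min_le_right _ _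
    rw [le_div_iff₀ (by positivity)] at this
    linarith
  obtain ⟨δ1, hδ1, -, hcore⟩ := concl_scale hp hq hpq A m hε40
  set δ : ℝ := min δ1 ε4 with hδ
  have hδ0 : 0 < δ := lt_min hδ1 hε40
  have hδε : δ ≤ ε4 := min_le_right _ _
  obtain ⟨k₀, hk₀⟩ := Concl.mono hcore (min_le_left δ1 ε4)
  obtain ⟨k, ⟨j, hj, hM⟩, hkk⟩ := ((h δ hδ0).and_eventually
    (eventually_ge_atTop (k₀ + 1))).exists
  obtain ⟨N₀, hN₀⟩ := hk₀ k (by omega) j hj
  obtain ⟨N₁, hN₁⟩ := exists_nat_ge (2 * k / ε4)
  set X : ℕ := Nat.log p (q ^ k) + 1 with hX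
  have hkR : (1 : ℝ) ≤ k := by exact_mod_cast (by omega : 1 ≤ k)
  have hXk : (k : ℝ) ≤ c * X := by
    have h1 : q ^ k < p ^ X := Nat.lt_pow_succ_log_self (by omega) _
    have h2 : ((q : ℝ)) ^ k < (p : ℝ) ^ X := by exact_mod_cast h1
    have h3 := Real.log_lt_log (by positivity) h2
    rw [Real.log_pow, Real.log_pow] at h3
    rw [hc, div_mul_eq_mul_div, le_div_iff₀ hlq]
    linarith
  set n₀ : ℕ := q ^ (max N₀ N₁) with hn₀
  set Bad : ℕ → Prop := fun n => ∃ w < q ^ m,
      (occ q m w (u * p ^ n) : ℝ) < (c₀ / (q : ℝ) ^ m - ε) * len q (u * p ^ n) with hBad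
  set Exc : Set ℕ := {n : ℕ | ∀ n' : ℕ, n ≤ n' → (n' : ℝ) < n + δ * k →
        (unp q k j δ (u * p ^ n') : ℝ) < (c₀ - δ) * len q (u * p ^ n')} with hExc
  -- one exponent controls the following ones
  have hone : ∀ n', n₀ ≤ n' → (c₀ - δ) * len q (u * p ^ n') ≤ unp q k j δ (u * p ^ n') →
      (((range X).filter fun a => Bad (n' + a)).card : ℝ) ≤ ε4 * k := by
    intro n' hn' hU
    set B : ℕ := u * p ^ n' with hB
    have hlen := len_large hq hp hu (max N₀ N₁) n' hn'
    rw [← hB] at hlen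
    refine le_trans ?_ (hN₀ B ((le_max_left _ _).trans hlen))
    have hN₁' : 2 * (k : ℝ) ≤ ε4 * len q B := by
      rw [div_le_iff₀ hε40] at hN₁
      have : (N₁ : ℝ) ≤ len q B := by exact_mod_cast (le_max_right _ _).trans hlen
      nlinarith
    have hsub : (range X).filter (fun a => Bad (n' + a)) ⊆
        ((range (Nat.log p (q ^ k) + 1)).filter fun a => ¬ ∀ w < q ^ m,
        (unp q k j δ B : ℝ) / ((q ^ m : ℕ) : ℝ) - ε4 * len q B ≤ occ q m w (p ^ a * B)) := by
      intro a ha
      rw [mem_filter] at ha ⊢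
      obtain ⟨haX0, w, hw, hlt⟩ := ha
      refine ⟨haX0, fun hcon => not_le.2 hlt ?_⟩
      have haX : a ≤ Nat.log p (q ^ k) := by
        have := mem_range.1 haX0
        omega
      have hpa : p ^ a ≤ q ^ k := Nat.pow_le_of_le_log (Nat.pow_pos hq0).ne' haX
      have hC : u * p ^ (n' + a) = p ^ a * B := by rw [hB, pow_add]; ring
      rw [hC]
      have hlenC : len q (p ^ a * B) ≤ len q B + k := len_mul_le hq hpa
      have hlenC' : len q B ≤ len q (p ^ a * B) :=
        len_mono (Nat.le_mul_of_pos_left B (Nat.pow_pos (by omega)))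
      have hlR : (len q (p ^ a * B) : ℝ) ≤ len q B + k := by exact_mod_cast hlenC
      have hlR' : (len q B : ℝ) ≤ len q (p ^ a * B) := by exact_mod_cast hlenC'
      have hκ : 4 * ε4 ≤ ε := le_trans (by nlinarith) hε4a
      refine le_trans ?_ (hcon w hw)
      have e0 : (q : ℝ) ^ m = (Q : ℝ) := by rw [hQ]; push_cast; rfl
      rw [e0]
      have h1 : c₀ * len q (p ^ a * B) / (Q : ℝ) ≤ c₀ * (len q B + k) / Q := by gcongr
      have h2 : (c₀ - δ) * len q B / (Q : ℝ) ≤ (unp q k j δ B : ℝ) / (Q : ℝ) := by gcongr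
      have h3 : c₀ * ((len q B : ℝ) + k) / Q =
          (c₀ - δ) * len q B / Q + (δ * len q B + c₀ * k) / Q := by
        ring
      have h4 : (δ * len q B + c₀ * k) / (Q : ℝ) ≤ δ * len q B + c₀ * k :=
        div_le_self (by positivity) hQR
      have h4' : c₀ * (k : ℝ) ≤ k := by nlinarith
      have h5 : δ * (len q B : ℝ) ≤ ε4 * len q (p ^ a * B) := by gcongr
      have h6 : ε4 * (len q B : ℝ) ≤ ε4 * len q (p ^ a * B) := by gcongr
      have h7 : 4 * ε4 * (len q (p ^ a * B) : ℝ) ≤ ε * len q (p ^ a * B) := by gcongr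
      have e1 : (c₀ / (Q : ℝ) - ε) * len q (p ^ a * B) =
          c₀ * len q (p ^ a * B) / Q - ε * len q (p ^ a * B) := by ring
      rw [e1]
      linarith
    exact_mod_cast card_le_card hsub
  -- the windows
  have hwin : ∀ n, n₀ ≤ n → n ∉ Exc →
      (((range X).filter fun a => Bad (n + a)).card : ℝ) ≤ 2 * ε4 * k := by
    intro n hn hnE
    rw [hExc, Set.mem_ofPred_eq] at hnE
    push Not at hnE
    obtain ⟨n', h1, h2, h3⟩ := hnE
    have h4 := hone n' (hn.trans h1) h3
    have hsub : (range X).filter (fun a => Bad (n + a)) ⊆ range (n' - n) ∪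
        ((range X).filter fun a => Bad (n' + a)).image fun a => a + (n' - n) := by
      intro a ha
      rw [mem_filter, mem_range] at ha
      rw [mem_union, mem_range, mem_image]
      by_cases h5 : a < n' - n
      · exact Or.inl h5
      · refine Or.inr ⟨a - (n' - n), ?_, by omega⟩
        rw [mem_filter, mem_range]
        refine ⟨by omega, ?_⟩
        have h6 : n' + (a - (n' - n)) = n + a := by omega
        rw [h6]
        exact ha.2
    have h5 := (card_le_card hsub).trans (card_union_le _ _)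
    rw [card_range] at h5
    have h6 := h5.trans (Nat.add_le_add_left card_image_le _)
    have h7 : (((range X).filter fun a => Bad (n + a)).card : ℝ) ≤
        ((n' - n : ℕ) : ℝ) + ((range X).filter fun a => Bad (n' + a)).card := by
      exact_mod_cast h6
    have h8 : ((n' - n : ℕ) : ℝ) ≤ δ * k := by
      rw [Nat.cast_sub h1]; linarith
    have h9 : δ * (k : ℝ) ≤ ε4 * k := by gcongr
    linarith
  -- the count
  have hXpos : (0 : ℝ) < X := by
    rw [hX]; positivity
  have hlarge : ∀ᶠ M : ℕ in atTop, ((n₀ : ℝ) + X) / (ε3 / 2) ≤ M :=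
    tendsto_natCast_atTop_atTop.eventually_ge_atTop _
  refine (hM.and hlarge).mono fun M hMM => ?_
  obtain ⟨hM, hM2⟩ := hMM
  rw [ncard_eq'] at hM
  have hM : (((range M).filter fun n => n ∈ Exc).card : ℝ) ≤ δ * M := hM
  rw [div_le_iff₀ (by positivity)] at hM2
  have h1 := cnt_avg Bad X M
  have h2 : ∀ n ∈ range M, (((range X).filter fun a => Bad (n + a)).card : ℝ) ≤
      2 * ε4 * k + ((if n < n₀ then (X : ℝ) else 0) + (if n ∈ Exc then (X : ℝ) else 0)) := by
    intro n _
    have h3 : (((range X).filter fun a => Bad (n + a)).card : ℝ) ≤ X := by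
      exact_mod_cast (card_filter_le _ _).trans (card_range X).le
    have h4 : 0 ≤ 2 * ε4 * (k : ℝ) := by positivity
    by_cases h5 : n < n₀
    · rw [if_pos h5]
      split_ifs <;> linarith
    · rw [if_neg h5]
      by_cases h6 : n ∈ Exc
      · rw [if_pos h6]; linarith
      · rw [if_neg h6]
        have := hwin n (by omega) h6
        linarith
  have h3 : (X : ℝ) * ((range M).filter Bad).card ≤
      ∑ n ∈ range M, (((range X).filter fun a => Bad (n + a)).card : ℝ) + X * X := by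
    exact_mod_cast h1
  have h4 : ∑ n ∈ range M, (if n < n₀ then (X : ℝ) else 0) ≤ n₀ * X := by
    rw [← sum_filter, sum_const, nsmul_eq_mul]
    have h5 : ((range M).filter fun n => n < n₀).card ≤ n₀ := by
      refine (card_le_card (t := range n₀) fun n hn => ?_).trans (card_range n₀).le
      exact mem_range.2 (mem_filter.1 hn).2
    have h6 : (((range M).filter fun n => n < n₀).card : ℝ) ≤ n₀ := by exact_mod_cast h5
    gcongr
  have h5 : ∑ n ∈ range M, (if n ∈ Exc then (X : ℝ) else 0) ≤ δ * M * X := by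
    rw [← sum_filter, sum_const, nsmul_eq_mul]
    gcongr
  have h6 := sum_le_sum h2
  rw [sum_add_distrib, sum_add_distrib, sum_const, card_range, nsmul_eq_mul] at h6
  have h7 : (X : ℝ) * ((range M).filter Bad).card ≤
      X * (ε4 * (2 * c + 1) * M + (n₀ + X)) := by
    have h8 : (M : ℝ) * (2 * ε4 * k) ≤ M * (2 * ε4 * (c * X)) := by gcongr
    have h9 : δ * (M : ℝ) * X ≤ ε4 * M * X := by gcongr
    calc (X : ℝ) * ((range M).filter Bad).card ≤
        M * (2 * ε4 * k) + (n₀ * X + δ * M * X) + X * X := by linarith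
      _ ≤ M * (2 * ε4 * (c * X)) + (n₀ * X + ε4 * M * X) + X * X := by linarith
      _ = _ := by ring
  have h8 := le_of_mul_le_mul_left h7 hXpos
  have h9 : ε4 * (2 * c + 1) * (M : ℝ) ≤ ε3 / 2 * M := by gcongr
  have h11 : (((range M).filter Bad).card : ℝ) ≤ ε3 * M := by linarith
  convert h11 using 3
  ext n
  simp [hBad]

open Classical in
theorem result_tfae {p q : ℕ} (hp : 2 ≤ p) (hq : 2 ≤ q)
    (hpq : ∀ x y : ℕ, 0 < x → 0 < y → p ^ x ≠ q ^ y) {u A : ℕ} (hu : 1 ≤ u) (hA : 1 ≤ A) :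
    List.TFAE [
      ∀ (m : ℕ) (ε : ℝ), 0 < ε → DensityZero {n | ¬ Balanced q m ε (u * p ^ n)},
      ∀ (δ : ℝ) (k j : ℕ), 0 < δ → 2 ≤ δ * (q : ℝ) ^ j →
        DensityZero {n | unp q k j δ (u * p ^ n) ≠ len q (u * p ^ n)},
      ∀ δ : ℝ, 0 < δ → ∃ᶠ k : ℕ in atTop, ∃ j : ℕ, Scale p q A k j ∧ ∀ᶠ M : ℕ in atTop,
        ({n : ℕ | n < M ∧ ∀ n' : ℕ, n ≤ n' → (n' : ℝ) < n + δ * k →
          (unp q k j δ (u * p ^ n') : ℝ) < (1 - δ) * len q (u * p ^ n')}.ncard : ℝ) ≤ δ * M] := by
  have hirr := irr_of_indep hp hq hpq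
  have hlp : 0 < Real.log p := Real.log_pos (by exact_mod_cast (by omega : 1 < p))
  have hlq : 0 < Real.log q := Real.log_pos (by exact_mod_cast (by omega : 1 < q))
  have hqR : (1 : ℝ) < q := by exact_mod_cast (by omega : 1 < q)
  have hq0 : 0 < q := by omega
  tfae_have 1 → 2 := by
    intro h δ k j hδ hδj
    obtain ⟨N₀, hN₀⟩ := exists_nat_ge (2 * δ * j * (q : ℝ) ^ (k + j))
    refine DensityZero.cover (n₀ := q ^ N₀) (h (k + j) (1 / (8 * (q : ℝ) ^ (k + j))) (by positivity))
      (h k (1 / (8 * (q : ℝ) ^ (k + j))) (by positivity)) fun n hn hnS => ?_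
    by_contra hcon
    push Not at hcon
    apply hnS
    have hlen : (N₀ : ℝ) ≤ len q (u * p ^ n) := by exact_mod_cast len_large hq hp hu N₀ n hn
    exact all_unp hq hδ hδj (not_not.1 hcon.1) (not_not.1 hcon.2) (hN₀.trans hlen)
  tfae_have 2 → 3 := by
    intro h δ hδ
    obtain ⟨j, hj⟩ := pow_unbounded_of_one_lt (2 / δ) hqR
    have hδj : 2 ≤ δ * (q : ℝ) ^ j := by
      rw [div_lt_iff₀ hδ] at hj
      linarith
    have h1 : ∀ᶠ k : ℕ in atTop, (q : ℝ) ^ j ≤ √(Real.log k) :=
      (Real.tendsto_sqrt_atTop.comp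
        (Real.tendsto_log_atTop.comp tendsto_natCast_atTop_atTop)).eventually_ge_atTop _
    refine Eventually.frequently ?_
    filter_upwards [h1, eventually_ge_atTop 1] with k hk hk1
    have hAR : (1 : ℝ) ≤ A := by exact_mod_cast hA
    have hsc : (q : ℝ) ^ j ≤ Real.exp (A * √(Real.log k)) := by
      have h0 : 0 ≤ √(Real.log k) := Real.sqrt_nonneg _
      have e1 : √(Real.log k) ≤ A * √(Real.log k) := le_mul_of_one_le_left h0 hAR
      have e2 := Real.add_one_le_exp ((A : ℝ) * √(Real.log k))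
      linarith
    refine ⟨j, Or.inl hsc, ?_⟩
    have h2 := (densityZero_iff _).1 (h δ k j hδ hδj) δ hδ
    refine h2.mono fun M hM => ?_
    rw [ncard_eq']
    refine le_trans ?_ hM
    have hsub : (range M).filter (fun n => ∀ n' : ℕ, n ≤ n' → (n' : ℝ) < n + δ * k →
          (unp q k j δ (u * p ^ n') : ℝ) < (1 - δ) * len q (u * p ^ n')) ⊆
        (range M).filter (fun n => n ∈ {n | unp q k j δ (u * p ^ n) ≠ len q (u * p ^ n)}) := by
      intro n hn
      rw [mem_filter] at hn ⊢
      refine ⟨hn.1, fun hcon => ?_⟩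
      have hk0 : (0 : ℝ) < k := by exact_mod_cast hk1
      have h3 := hn.2 n le_rfl (by have := mul_pos hδ hk0; linarith)
      rw [hcon] at h3
      have h4 : (0 : ℝ) ≤ len q (u * p ^ n) := Nat.cast_nonneg _
      nlinarith
    exact_mod_cast card_le_card hsub
  tfae_have 3 → 1 := by
    intro h m ε hε
    set Q : ℕ := q ^ m with hQ
    have hQ1 : 1 ≤ Q := Nat.one_le_pow _ _ hq0
    have hQR : (1 : ℝ) ≤ Q := by exact_mod_cast hQ1
    have hQR0 : (0 : ℝ) < Q := by linarith
    have h1 := dens_lower hp hq hpq hu zero_le_one le_rfl h m (ε := ε / Q) (by positivity)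
    refine DensityZero.cover (n₀ := 0) h1 h1 fun n _ hn => Or.inl ?_
    by_contra hcon
    apply hn
    rw [Set.mem_ofPred_eq] at hcon
    push Not at hcon
    refine balanced_of_lower hq (κ := ε / Q) (by positivity) (by rw [← hQ]; field_simp; rfl)
      fun w hw => ?_
    have h2 := hcon w hw
    have e0 : (q : ℝ) ^ m = (Q : ℝ) := by rw [hQ]; push_cast; rfl
    rw [e0] at h2
    rw [← hQ]
    refine le_trans (le_of_eq ?_) h2
    ring
  tfae_finish

end Pool.Agent.H42UP
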