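import Pool.Agent.H42UP.Var
import Pool.Agent.H42UP.Defs

/-!
The empirical measure of the places of an integer; unpredictable places and masses of small balls.
-/

set_option autoImplicit false

namespace Pool.Agent.H42UP

open Finset MeasureTheory
open scoped ENNReal
open Pool.Agent.W764.FB (T)
open Metric (closedBall mem_closedBall)

/-- the uniform distribution on `x 0, …, x (N - 1)` -/
noncomputable def unif (N : ℕ) (x : ℕ → T) : Measure T :=
  ((N : ℝ≥0∞)⁻¹) • ∑ i ∈ range N, Measure.dirac (x i)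

lemma unif_apply {N : ℕ} (x : ℕ → T) {S : Set T} [DecidablePred fun i => x i ∈ S]
    (hS : MeasurableSet S) :
    unif N x S = (N : ℝ≥0∞)⁻¹ * (((range N).filter fun i => x i ∈ S).card : ℝ≥0∞) := by
  classical
  unfold unif
  rw [Measure.smul_apply, smul_eq_mul, Measure.finsetSum_apply]
  congr 1
  rw [card_filter]
  push_cast
  refine sum_congr rfl fun i _ => ?_
  rw [Measure.dirac_apply' _ hS]
  by_cases h : x i ∈ S
  · simp [h]
  · simp [h]

lemma unif_prob {N : ℕ} (hN : 1 ≤ N) (x : ℕ → T) : IsProbabilityMeasure (unif N x) := by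
  constructor
  rw [unif_apply x MeasurableSet.univ]
  simp only [Set.mem_univ, filter_true, card_range]
  exact ENNReal.inv_mul_cancel (by exact_mod_cast (by omega : N ≠ 0)) (ENNReal.natCast_ne_top N)

lemma unif_real {N : ℕ} (x : ℕ → T) {S : Set T} [DecidablePred fun i => x i ∈ S]
    (hS : MeasurableSet S) :
    (unif N x).real S = (((range N).filter fun i => x i ∈ S).card : ℝ) / N := by
  rw [measureReal_def, unif_apply x hS, ENNReal.toReal_mul, ENNReal.toReal_inv]
  simp only [ENNReal.toReal_natCast]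
  rw [div_eq_inv_mul]

lemma unif_setIntegral {N : ℕ} (x : ℕ → T) {S : Set T} [DecidablePred fun i => x i ∈ S]
    (hS : MeasurableSet S) (f : T → ℝ) :
    ∫ y in S, f y ∂(unif N x) = (∑ i ∈ (range N).filter fun i => x i ∈ S, f (x i)) / N := by
  classical
  rw [← integral_indicator hS]
  unfold unif
  rw [integral_smul_measure, integral_finsetSum_measure (fun i _ => integrable_dirac (by
    simp [enorm_lt_top]))]
  simp only [integral_dirac]
  rw [ENNReal.toReal_inv, ENNReal.toReal_natCast, smul_eq_mul, div_eq_inv_mul]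
  congr 1
  rw [sum_filter]
  refine sum_congr rfl fun i _ => ?_
  by_cases h : x i ∈ S
  · simp [h]
  · simp [h]

/-- few places have a key which is rare compared with `F` -/
lemma few_keys (N D : ℕ) (key : ℕ → ℕ) (hkey : ∀ i < N, key i < D) (F : ℕ → ℕ)
    (hF : ∑ W ∈ range D, F W ≤ N) {η : ℝ} (hη : 0 ≤ η) :
    (((range N).filter fun i => (((range N).filter fun i' => key i' = key i).card : ℝ) <
      η * F (key i)).card : ℝ) ≤ η * N := by
  classical
  set S := (range N).filter fun i => (((range N).filter fun i' => key i' = key i).card : ℝ) <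
      η * F (key i) with hS
  have h1 : S.card = ∑ W ∈ range D, (S.filter fun i => key i = W).card :=
    card_eq_sum_card_fiberwise fun i hi => by
      have := (mem_filter.1 hi).1
      exact mem_coe.2 (mem_range.2 (hkey i (mem_range.1 this)))
  have h2 : ∀ W ∈ range D, ((S.filter fun i => key i = W).card : ℝ) ≤ η * F W := by
    intro W _
    rcases (S.filter fun i => key i = W).eq_empty_or_nonempty with h | ⟨i, hi⟩
    · rw [h, card_empty, Nat.cast_zero]; positivity
    · rw [mem_filter] at hi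
      have h3 := (mem_filter.1 hi.1).2
      rw [hi.2] at h3
      refine le_trans ?_ h3.le
      have h4 : S.filter (fun i => key i = W) ⊆ (range N).filter fun i' => key i' = W := by
        intro i' hi'
        rw [mem_filter] at hi' ⊢
        exact ⟨(mem_filter.1 hi'.1).1, hi'.2⟩
      exact_mod_cast card_le_card h4
  rw [h1]
  push_cast
  refine (sum_le_sum h2).trans ?_
  rw [← mul_sum]
  have : ((∑ W ∈ range D, F W : ℕ) : ℝ) ≤ N := by exact_mod_cast hF
  push_cast at this
  gcongr

/-- the point of the circle which belongs to the place `i` -/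
noncomputable def pt (q h B i : ℕ) : T := (((B : ℝ) / (q : ℝ) ^ (i + h) : ℝ) : T)

lemma near_words {q : ℕ} (hq : 2 ≤ q) (h B i i' : ℕ)
    (hd : ‖pt q h B i' - pt q h B i‖ ≤ 1 / (q : ℝ) ^ h) :
    B / q ^ i' % q ^ h = B / q ^ i % q ^ h ∨
    B / q ^ i' % q ^ h = (B / q ^ i % q ^ h + 1) % q ^ h ∨
    (B / q ^ i' % q ^ h + 1) % q ^ h = B / q ^ i % q ^ h := by
  have hq0 : 0 < q := by omega
  have hqR : (0 : ℝ) < q := by exact_mod_cast hq0
  have hD : (0 : ℝ) < (q : ℝ) ^ h := by positivity
  have hfl : ∀ i : ℕ, ((B / q ^ i : ℕ) : ℝ) ≤ (B : ℝ) / (q : ℝ) ^ i ∧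
      (B : ℝ) / (q : ℝ) ^ i < ((B / q ^ i : ℕ) : ℝ) + 1 := by
    intro i
    have h0 : (0 : ℝ) < (q : ℝ) ^ i := by positivity
    constructor
    · have := @Nat.cast_div_le ℝ _ _ _ B (q ^ i)
      push_cast at this
      exact this
    · rw [div_lt_iff₀ h0]
      have := Nat.lt_mul_div_succ B (Nat.pow_pos hq0 : 0 < q ^ i)
      have h1 : (B : ℝ) < ((q ^ i : ℕ) : ℝ) * (((B / q ^ i : ℕ) : ℝ) + 1) := by exact_mod_cast this
      push_cast at h1
      linarith
  unfold pt at hd
  rw [← AddCircle.coe_sub, UnitAddCircle.norm_eq] at hd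
  set n : ℤ := round ((B : ℝ) / (q : ℝ) ^ (i' + h) - (B : ℝ) / (q : ℝ) ^ (i + h)) with hn
  have h1 : |(B : ℝ) / (q : ℝ) ^ i' - (B : ℝ) / (q : ℝ) ^ i - n * (q : ℝ) ^ h| ≤ 1 := by
    have e1 : (B : ℝ) / (q : ℝ) ^ i' - (B : ℝ) / (q : ℝ) ^ i - n * (q : ℝ) ^ h =
        ((B : ℝ) / (q : ℝ) ^ (i' + h) - (B : ℝ) / (q : ℝ) ^ (i + h) - n) * (q : ℝ) ^ h := by
      rw [pow_add, pow_add]
      field_simp
    rw [e1, abs_mul, abs_of_pos hD]
    rwa [le_div_iff₀ hD] at hd
  rw [abs_le] at h1
  obtain ⟨f1, f2⟩ := hfl i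
  obtain ⟨f3, f4⟩ := hfl i'
  set F : ℕ := B / q ^ i with hF
  set F' : ℕ := B / q ^ i' with hF'
  have h2 : -2 < (F' : ℤ) - F - n * (q : ℤ) ^ h ∧ (F' : ℤ) - F - n * (q : ℤ) ^ h < 2 := by
    have e2 : (((F' : ℤ) - F - n * (q : ℤ) ^ h : ℤ) : ℝ) = (F' : ℝ) - F - n * (q : ℝ) ^ h := by
      push_cast; ring
    constructor
    · have : (((-2 : ℤ)) : ℝ) < (((F' : ℤ) - F - n * (q : ℤ) ^ h : ℤ) : ℝ) := by
        rw [e2]; push_cast; linarith [h1.1]
      exact_mod_cast this
    · have : (((F' : ℤ) - F - n * (q : ℤ) ^ h : ℤ) : ℝ) < ((2 : ℤ) : ℝ) := by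
        rw [e2]; push_cast; linarith [h1.2]
      exact_mod_cast this
  have hmod : ∀ x y : ℕ, (∃ t : ℤ, (x : ℤ) = y + t * (q : ℤ) ^ h) → x % q ^ h = y % q ^ h := by
    rintro x y ⟨t, ht⟩
    have h3 : (x : ℤ) ≡ y [ZMOD ((q ^ h : ℕ) : ℤ)] := by
      rw [Int.modEq_iff_dvd]
      refine ⟨-t, ?_⟩
      push_cast
      rw [ht]; ring
    exact (Int.natCast_modEq_iff.1 h3)
  have h3 : (F' : ℤ) - F - n * (q : ℤ) ^ h = 0 ∨ (F' : ℤ) - F - n * (q : ℤ) ^ h = 1 ∨
      (F' : ℤ) - F - n * (q : ℤ) ^ h = -1 := by omega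
  rcases h3 with h3 | h3 | h3
  · left
    exact hmod F' F ⟨n, by linarith⟩
  · right; left
    have h4 := hmod F' (F + 1) ⟨n, by push_cast; linarith⟩
    rw [h4, Nat.mod_add_mod]
  · right; right
    have h4 := hmod (F' + 1) F ⟨n, by push_cast; linarith⟩
    rw [← h4, Nat.mod_add_mod]

lemma same_context_near {q : ℕ} (hq : 2 ≤ q) (k j B i i' : ℕ)
    (hc : B / q ^ (i' + j) % q ^ k = B / q ^ (i + j) % q ^ k) :
    ‖pt q (k + j) B i' - pt q (k + j) B i‖ ≤ 1 / (q : ℝ) ^ k := by
  have h1 := digit_arc hq B (e := i + (k + j)) (l := k) (by omega)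
  have h2 := digit_arc hq B (e := i' + (k + j)) (l := k) (by omega)
  have e1 : i + (k + j) - k = i + j := by omega
  have e2 : i' + (k + j) - k = i' + j := by omega
  rw [e1] at h1
  rw [e2, hc] at h2
  unfold pt
  set c : T := (((((B / q ^ (i + j) % q ^ k : ℕ) : ℝ) + 1 / 2) / ((q ^ k : ℕ) : ℝ) : ℝ) : T)
  have h3 := norm_sub_le (((((B : ℝ) / (q : ℝ) ^ (i' + (k + j)) : ℝ)) : T) - c)
    (((((B : ℝ) / (q : ℝ) ^ (i + (k + j)) : ℝ)) : T) - c)
  rw [sub_sub_sub_cancel_right] at h3
  refine h3.trans ((add_le_add h2 h1).trans (le_of_eq ?_))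
  push_cast
  have : (0 : ℝ) < (q : ℝ) ^ k := by
    have : (0 : ℝ) < q := by exact_mod_cast (by omega : 0 < q)
    positivity
  field_simp
  ring

/-- **Most unpredictable places are in the good set.** -/
lemma unp_le {q : ℕ} (hq : 2 ≤ q) (k j B : ℕ) (hN : 1 ≤ len q B) {δ δ' : ℝ} (hδ : 0 < δ)
    (hδ1 : δ ≤ 1) (hδδ : 3 * √δ ≤ δ') :
    (((range (len q B)).filter fun i =>
      (sameWord q (k + j) B i : ℝ) ≤ δ * sameContext q k j B i).card : ℝ) ≤
    ((range (len q B)).filter fun i => pt q (k + j) B i ∈ {x : T |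
      (unif (len q B) (pt q (k + j) B)).real (closedBall x (1 / (q : ℝ) ^ (k + j))) ≤
      δ' * (unif (len q B) (pt q (k + j) B)).real (closedBall x (1 / (q : ℝ) ^ k))}).card +
    2 * √δ * len q B := by
  classical
  set N := len q B with hNdef
  set h := k + j with hh
  set η : ℝ := √δ with hη
  have hη0 : 0 < η := Real.sqrt_pos.2 hδ
  have hη2 : η * η = δ := Real.mul_self_sqrt hδ.le
  have hη1 : η ≤ 1 := by
    rw [hη]; exact Real.sqrt_le_one.2 hδ1
  have hN0 : (0 : ℝ) < N := by exact_mod_cast hN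
  have hD : 0 < q ^ h := Nat.pow_pos (by omega)
  set wd : ℕ → ℕ := fun i => B / q ^ i % q ^ h with hwd
  have hwdlt : ∀ i, wd i < q ^ h := fun i => Nat.mod_lt _ hD
  set σ : ℕ → ℕ := fun W => (W + 1) % q ^ h with hσ
  set f : ℕ → ℕ := fun i => ((range N).filter fun i' => wd i' = wd i).card with hf
  set Fp : ℕ → ℕ := fun W => ((range N).filter fun i' => wd i' = σ W).card with hFp
  set Fm : ℕ → ℕ := fun W => ((range N).filter fun i' => σ (wd i') = W).card with hFm
  have hFm_sum : ∑ W ∈ range (q ^ h), Fm W ≤ N := by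
    have h1 : (range N).card = ∑ W ∈ range (q ^ h), ((range N).filter fun i' => σ (wd i') = W).card :=
      card_eq_sum_card_fiberwise fun i _ => mem_coe.2 (mem_range.2 (Nat.mod_lt _ hD))
    rw [card_range] at h1
    exact h1.symm.le
  have hFp_sum : ∑ W ∈ range (q ^ h), Fp W ≤ N := by
    have h1 : ∑ W ∈ range (q ^ h), Fp W =
        ∑ W' ∈ (range (q ^ h)).image σ, ((range N).filter fun i' => wd i' = W').card := by
      rw [sum_image]
      intro x hx y hy hxy
      rw [coe_range, Set.mem_Iio] at hx hy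
      simp only [hσ] at hxy
      have hxy' : x + 1 ≡ y + 1 [MOD q ^ h] := hxy
      have := Nat.ModEq.add_right_cancel' 1 hxy'
      exact Nat.ModEq.eq_of_lt_of_lt this hx hy
    have h2 : (range N).card = ∑ W ∈ range (q ^ h), ((range N).filter fun i' => wd i' = W).card :=
      card_eq_sum_card_fiberwise fun i _ => mem_coe.2 (mem_range.2 (hwdlt i))
    rw [card_range] at h2
    rw [h1]
    refine le_trans (sum_le_sum_of_subset
      (f := fun W => ((range N).filter fun i' => wd i' = W).card) ?_) h2.symm.le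
    intro W hW
    rw [mem_image] at hW
    obtain ⟨x, _, rfl⟩ := hW
    exact mem_range.2 (Nat.mod_lt _ hD)
  have hbadp := few_keys N (q ^ h) wd (fun i _ => hwdlt i) Fp hFp_sum hη0.le
  have hbadm := few_keys N (q ^ h) wd (fun i _ => hwdlt i) Fm hFm_sum hη0.le
  set μ := unif N (pt q h B) with hμ
  set E : Set T := {x : T | μ.real (closedBall x (1 / (q : ℝ) ^ h)) ≤
      δ' * μ.real (closedBall x (1 / (q : ℝ) ^ k))} with hE
  have hsub : (range N).filter (fun i =>
      (sameWord q h B i : ℝ) ≤ δ * sameContext q k j B i) ⊆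
      ((range N).filter fun i => pt q h B i ∈ E) ∪
      (((range N).filter fun i => (((range N).filter fun i' => wd i' = wd i).card : ℝ) <
        η * Fp (wd i)) ∪
      ((range N).filter fun i => (((range N).filter fun i' => wd i' = wd i).card : ℝ) <
        η * Fm (wd i))) := by
    intro i hi
    rw [mem_filter] at hi
    obtain ⟨hiN, hi2⟩ := hi
    rw [mem_union, mem_union, mem_filter, mem_filter, mem_filter]
    by_contra hcon
    push Not at hcon
    obtain ⟨c1, c2, c3⟩ := hcon
    have c2 := c2 hiN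
    have c3 := c3 hiN
    apply c1 hiN
    show μ.real (closedBall (pt q h B i) (1 / (q : ℝ) ^ h)) ≤
      δ' * μ.real (closedBall (pt q h B i) (1 / (q : ℝ) ^ k))
    rw [hμ, unif_real _ measurableSet_closedBall, unif_real _ measurableSet_closedBall]
    set d1 : ℕ := ((range N).filter fun i' => pt q h B i' ∈
      closedBall (pt q h B i) (1 / (q : ℝ) ^ h)).card with hd1
    set d2 : ℕ := ((range N).filter fun i' => pt q h B i' ∈
      closedBall (pt q h B i) (1 / (q : ℝ) ^ k)).card with hd2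
    have g1 : d1 ≤ f i + (Fp (wd i) + Fm (wd i)) := by
      have g2 : ((range N).filter fun i' => pt q h B i' ∈
          closedBall (pt q h B i) (1 / (q : ℝ) ^ h)) ⊆
          ((range N).filter fun i' => wd i' = wd i) ∪
          (((range N).filter fun i' => wd i' = σ (wd i)) ∪
          ((range N).filter fun i' => σ (wd i') = wd i)) := by
        intro i' hi'
        rw [mem_filter, mem_closedBall, dist_eq_norm] at hi'
        rw [mem_union, mem_union, mem_filter, mem_filter, mem_filter]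
        rcases near_words hq h B i i' hi'.2 with h3 | h3 | h3
        · exact Or.inl ⟨hi'.1, h3⟩
        · exact Or.inr (Or.inl ⟨hi'.1, h3⟩)
        · exact Or.inr (Or.inr ⟨hi'.1, h3⟩)
      exact (card_le_card g2).trans ((card_union_le _ _).trans
        (Nat.add_le_add_left (card_union_le _ _) _))
    have g3 : sameContext q k j B i ≤ d2 := by
      refine card_le_card fun i' hi' => ?_
      rw [mem_filter] at hi' ⊢
      refine ⟨hi'.1, ?_⟩
      rw [mem_closedBall, dist_eq_norm]
      exact same_context_near hq k j B i i' hi'.2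
    have g4 : (f i : ℝ) ≤ δ * d2 := by
      have e1 : (f i : ℝ) = sameWord q h B i := rfl
      rw [e1]
      refine hi2.trans ?_
      have : (sameContext q k j B i : ℝ) ≤ d2 := by exact_mod_cast g3
      gcongr
    have c2' : η * Fp (wd i) ≤ f i := c2
    have c3' : η * Fm (wd i) ≤ f i := c3
    have g5 : ∀ F : ℕ, η * (F : ℝ) ≤ f i → (F : ℝ) ≤ η * d2 := by
      intro F hF
      have h5 : η * (F : ℝ) ≤ η * (η * d2) := by
        calc η * (F : ℝ) ≤ f i := hF
          _ ≤ δ * d2 := g4
          _ = η * (η * d2) := by rw [← hη2]; ring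
      exact le_of_mul_le_mul_left h5 hη0
    have g6 := g5 _ c2'
    have g7 := g5 _ c3'
    have g8 : (d1 : ℝ) ≤ δ' * d2 := by
      have g9 : (d1 : ℝ) ≤ f i + (Fp (wd i) + Fm (wd i)) := by exact_mod_cast g1
      have g10 : (0 : ℝ) ≤ d2 := Nat.cast_nonneg _
      have g11 : δ ≤ η := by rw [← hη2]; nlinarith
      calc (d1 : ℝ) ≤ δ * d2 + (η * d2 + η * d2) := by linarith
        _ ≤ η * d2 + (η * d2 + η * d2) := by gcongr
        _ = 3 * η * d2 := by ring
        _ ≤ δ' * d2 := by gcongr
    rw [div_le_iff₀ hN0]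
    have e3 : δ' * ((d2 : ℝ) / N) * N = δ' * d2 := by field_simp
    rw [e3]
    exact g8
  have h1 := (card_le_card hsub).trans ((card_union_le _ _).trans
    (Nat.add_le_add_left (card_union_le _ _) _))
  have h2 : (((range N).filter (fun i =>
      (sameWord q h B i : ℝ) ≤ δ * sameContext q k j B i)).card : ℝ) ≤
      ((range N).filter fun i => pt q h B i ∈ E).card +
      (((range N).filter fun i => (((range N).filter fun i' => wd i' = wd i).card : ℝ) <
        η * Fp (wd i)).card +
      ((range N).filter fun i => (((range N).filter fun i' => wd i' = wd i).card : ℝ) <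
        η * Fm (wd i)).card) := by exact_mod_cast h1
  refine h2.trans ?_
  have e4 : 2 * η * (N : ℝ) = η * N + η * N := by ring
  rw [e4]
  gcongr

end Pool.Agent.H42UP
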