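import Pool.Agent.H42UP.Emp

/-!
From the digits of the points of the circle to the words in an integer.
-/

set_option autoImplicit false

namespace Pool.Agent.H42UP

open Finset
open Pool.Agent.W764.FB (T)

lemma mod_div_mod {q c m l : ℕ} (X : ℕ) (h : c + m ≤ l) :
    X % q ^ l / q ^ c % q ^ m = X / q ^ c % q ^ m := by
  have h1 : q ^ l = q ^ c * q ^ (l - c) := by rw [← pow_add]; congr 1; omega
  rw [h1, Nat.mod_mul_right_div_self, Nat.mod_mod_of_dvd]
  exact pow_dvd_pow q (by omega)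

lemma occ_long {q m C N h w : ℕ} (hlen : N ≤ len q C) :
    ((range (N + h)).filter fun i => C / q ^ i % q ^ m = w).card ≤ occ q m w C + h := by
  have h1 : ((range (N + h)).filter fun i => C / q ^ i % q ^ m = w) ⊆
      ((range (len q C)).filter fun i => C / q ^ i % q ^ m = w) ∪ Ico N (N + h) := by
    intro i hi
    rw [mem_filter, mem_range] at hi
    rw [mem_union, mem_filter, mem_range, mem_Ico]
    by_cases h2 : i < N
    · exact Or.inl ⟨by omega, hi.2⟩
    · exact Or.inr ⟨by omega, hi.1⟩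
  refine (card_le_card h1).trans ((card_union_le _ _).trans ?_)
  rw [Nat.card_Ico, Nat.add_sub_cancel_left]
  exact le_rfl

lemma count_word {q m K C N h b w : ℕ} (hlen : N ≤ len q C) (hlh : m * K ≤ h) :
    ∑ i ∈ Ico b N, cw (q ^ m) K w (C / q ^ (i + h - b - m * K) % q ^ (m * K)) ≤
      K * (occ q m w C + h) := by
  unfold cw
  simp_rw [card_filter]
  rw [sum_comm]
  have h1 : ∀ t ∈ range K, (∑ i ∈ Ico b N, if C / q ^ (i + h - b - m * K) % q ^ (m * K) /
      (q ^ m) ^ t % q ^ m = w then 1 else 0) ≤ occ q m w C + h := by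
    intro t ht
    rw [mem_range] at ht
    have htK : m * t + m ≤ m * K := by
      calc m * t + m = m * (t + 1) := by ring
        _ ≤ m * K := Nat.mul_le_mul_left m ht
    rw [← card_filter]
    refine le_trans ?_ (occ_long (q := q) (m := m) (h := h) (w := w) hlen)
    refine card_le_card_of_injOn (fun i => i + h - b - m * K + m * t) ?_ ?_
    · intro i hi
      rw [mem_coe, mem_filter, mem_Ico] at hi
      obtain ⟨⟨hi1, hi2⟩, hi3⟩ := hi
      rw [mem_coe, mem_filter, mem_range]
      refine ⟨by show i + h - b - m * K + m * t < N + h; omega, ?_⟩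
      rw [← pow_mul, mod_div_mod _ htK, Nat.div_div_eq_div_mul, ← pow_add] at hi3
      exact hi3
    · intro i hi i' hi' he
      rw [mem_coe, mem_filter, mem_Ico] at hi hi'
      simp only at he
      omega
  calc _ ≤ ∑ t ∈ range K, (occ q m w C + h) := sum_le_sum h1
    _ = _ := by rw [sum_const, card_range, smul_eq_mul]

lemma good_count {q m K C N h b : ℕ} (hK : 1 ≤ K) (hlen : N ≤ len q C) (hlh : m * K ≤ h)
    {ε : ℝ} (hε1 : ε ≤ 1 / ((q ^ m : ℕ) : ℝ)) {I : Finset ℕ} (hI : I ⊆ range N)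
    (hbad : ((I.filter fun i => b ≤ i ∧ C / q ^ (i + h - b - m * K) % q ^ (m * K) ∈
      badW (q ^ m) K ε).card : ℝ) ≤ ε * N) {w : ℕ} (hw : w < q ^ m) :
    (1 / ((q ^ m : ℕ) : ℝ) - ε) * (I.card - b - ε * N) ≤ occ q m w C + h := by
  classical
  have hKR : (0 : ℝ) < K := by exact_mod_cast hK
  set Q : ℕ := q ^ m with hQ
  set V : ℕ → ℕ := fun i => C / q ^ (i + h - b - m * K) % q ^ (m * K) with hV
  have hVlt : ∀ i, V i < Q ^ K := by
    intro i
    rw [hQ, ← pow_mul]
    apply Nat.mod_lt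
    have hQ0 : 0 < q ^ m := by omega
    rcases Nat.eq_zero_or_pos q with h0 | h0
    · subst h0
      rcases Nat.eq_zero_or_pos m with h1 | h1
      · subst h1; simp
      · rw [zero_pow h1.ne'] at hQ0; omega
    · exact Nat.pow_pos h0
  have h1 := count_word (b := b) (w := w) hlen hlh
  set S : Finset ℕ := I.filter fun i => b ≤ i ∧ V i ∉ badW Q K ε with hS
  have h2 : S ⊆ Ico b N := by
    intro i hi
    rw [mem_filter] at hi
    rw [mem_Ico]
    exact ⟨hi.2.1, mem_range.1 (hI hi.1)⟩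
  have h3 : (S.card : ℝ) * ((1 / (Q : ℝ) - ε) * K) ≤ K * (occ q m w C + h) := by
    have h4 : (S.card : ℝ) * ((1 / (Q : ℝ) - ε) * K) ≤ ∑ i ∈ S, (cw Q K w (V i) : ℝ) := by
      rw [← nsmul_eq_mul]
      refine card_nsmul_le_sum _ _ _ fun i hi => ?_
      rw [mem_filter] at hi
      have h5 := hi.2.2
      rw [mem_badW] at h5
      push Not at h5
      exact h5 (hVlt i) w hw
    have h6 : ∑ i ∈ S, (cw Q K w (V i) : ℝ) ≤ ∑ i ∈ Ico b N, (cw Q K w (V i) : ℝ) :=
      sum_le_sum_of_subset_of_nonneg h2 fun i _ _ => Nat.cast_nonneg _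
    have h7 : ∑ i ∈ Ico b N, (cw Q K w (V i) : ℝ) ≤ K * (occ q m w C + h) := by exact_mod_cast h1
    exact h4.trans (h6.trans h7)
  have h8 : (I.card : ℝ) - b - ε * N ≤ S.card := by
    have h9 : I ⊆ S ∪ ((range b) ∪ I.filter fun i => b ≤ i ∧ V i ∈ badW Q K ε) := by
      intro i hi
      rw [mem_union, mem_union, mem_filter, mem_filter, mem_range]
      by_cases h10 : i < b
      · exact Or.inr (Or.inl h10)
      · by_cases h11 : V i ∈ badW Q K ε
        · exact Or.inr (Or.inr ⟨hi, by omega, h11⟩)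
        · exact Or.inl ⟨hi, by omega, h11⟩
    have h10 := (card_le_card h9).trans ((card_union_le _ _).trans
      (Nat.add_le_add_left (card_union_le _ _) _))
    rw [card_range] at h10
    have h11 : (I.card : ℝ) ≤ S.card + (b + (I.filter fun i => b ≤ i ∧ V i ∈ badW Q K ε).card) := by
      exact_mod_cast h10
    linarith
  have h12 : 0 ≤ 1 / (Q : ℝ) - ε := by linarith
  have h13 : (S.card : ℝ) * (1 / (Q : ℝ) - ε) ≤ occ q m w C + h := by
    have h14 : (S.card : ℝ) * (1 / (Q : ℝ) - ε) * K ≤ (occ q m w C + h) * K := by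
      calc _ = (S.card : ℝ) * ((1 / (Q : ℝ) - ε) * K) := by ring
        _ ≤ _ := h3
        _ = _ := by ring
    exact le_of_mul_le_mul_right h14 hKR
  calc (1 / (Q : ℝ) - ε) * (I.card - b - ε * N) ≤ (1 / (Q : ℝ) - ε) * S.card := by gcongr
    _ = S.card * (1 / (Q : ℝ) - ε) := by ring
    _ ≤ _ := h13

end Pool.Agent.H42UP
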