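import Pool.Agent.H42UP.TwoLogs

/-!
The scales, multiplicative independence, and elementary facts on lengths and words.
-/

set_option autoImplicit false

namespace Pool.Agent.H42UP

open Finset Filter Topology
open Pool.Agent.H806.Gap

lemma irr_of_indep {p q : ℕ} (hp : 2 ≤ p) (hq : 2 ≤ q)
    (h : ∀ x y : ℕ, 0 < x → 0 < y → p ^ x ≠ q ^ y) : Irrational (Real.log p / Real.log q) := by
  have hlp : 0 < Real.log p := Real.log_pos (by exact_mod_cast (by omega : 1 < p))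
  have hlq : 0 < Real.log q := Real.log_pos (by exact_mod_cast (by omega : 1 < q))
  rintro ⟨r, hr⟩
  have hpos : 0 < (r : ℝ) := by rw [hr]; positivity
  have hr0 : 0 < r := by exact_mod_cast hpos
  have hden : (0 : ℝ) < r.den := by exact_mod_cast r.den_pos
  have hnum : 0 < r.num := Rat.num_pos.2 hr0
  have h1 : (r : ℝ) = (r.num.toNat : ℝ) / (r.den : ℝ) := by
    have e1 : ((r.num.toNat : ℤ) : ℝ) = (r.num : ℝ) := by
      rw [Int.toNat_of_nonneg hnum.le]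
    have e2 : (r : ℝ) = (r.num : ℝ) / (r.den : ℝ) := by
      exact_mod_cast (Rat.num_div_den r).symm
    rw [e2, ← e1]
    push_cast
    rfl
  rw [h1, div_eq_div_iff hden.ne' hlq.ne'] at hr
  apply h r.den r.num.toNat r.den_pos (by omega)
  have h2 : Real.log ((p : ℝ) ^ r.den) = Real.log ((q : ℝ) ^ r.num.toNat) := by
    rw [Real.log_pow, Real.log_pow]; linarith
  have hpR : (0 : ℝ) < p := by exact_mod_cast (by omega : 0 < p)
  have hqR : (0 : ℝ) < q := by exact_mod_cast (by omega : 0 < q)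
  have h3 := Real.log_injOn_pos (Set.mem_Ioi.2 (by positivity)) (Set.mem_Ioi.2 (by positivity)) h2
  exact_mod_cast h3

lemma unp_mono {q k j B : ℕ} {δ δ' : ℝ} (h : δ ≤ δ') : unp q k j δ B ≤ unp q k j δ' B := by
  unfold unp
  refine card_le_card fun i hi => ?_
  rw [mem_filter] at hi ⊢
  refine ⟨hi.1, hi.2.trans ?_⟩
  gcongr

/-- the conclusion of the main estimate for the scales with the property `P` -/
def Concl (p q m : ℕ) (ε : ℝ) (P : ℕ → ℕ → Prop) : Prop :=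
  ∃ δ : ℝ, 0 < δ ∧ δ ≤ 1 ∧ ∃ k₀ : ℕ, ∀ k, k₀ ≤ k → ∀ j, P k j → ∃ N₀ : ℕ, ∀ B : ℕ, N₀ ≤ len q B →
    (((range (Nat.log p (q ^ k) + 1)).filter fun a => ¬ ∀ w < q ^ m,
      (unp q k j δ B : ℝ) / ((q ^ m : ℕ) : ℝ) - ε * len q B ≤ occ q m w (p ^ a * B)).card : ℝ) ≤
        ε * k

lemma Concl.mono {p q m : ℕ} {ε : ℝ} {P : ℕ → ℕ → Prop} {δ : ℝ}
    (h : ∃ k₀ : ℕ, ∀ k, k₀ ≤ k → ∀ j, P k j → ∃ N₀ : ℕ, ∀ B : ℕ, N₀ ≤ len q B →
    (((range (Nat.log p (q ^ k) + 1)).filter fun a => ¬ ∀ w < q ^ m,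
      (unp q k j δ B : ℝ) / ((q ^ m : ℕ) : ℝ) - ε * len q B ≤ occ q m w (p ^ a * B)).card : ℝ) ≤
        ε * k) {δ' : ℝ} (hδ : δ' ≤ δ) : ∃ k₀ : ℕ, ∀ k, k₀ ≤ k → ∀ j, P k j → ∃ N₀ : ℕ, ∀ B : ℕ,
    N₀ ≤ len q B →
    (((range (Nat.log p (q ^ k) + 1)).filter fun a => ¬ ∀ w < q ^ m,
      (unp q k j δ' B : ℝ) / ((q ^ m : ℕ) : ℝ) - ε * len q B ≤ occ q m w (p ^ a * B)).card : ℝ) ≤
        ε * k := by
  obtain ⟨k₀, h⟩ := h
  refine ⟨k₀, fun k hk j hj => ?_⟩
  obtain ⟨N₀, h⟩ := h k hk j hj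
  refine ⟨N₀, fun B hB => le_trans ?_ (h B hB)⟩
  have hsub : ((range (Nat.log p (q ^ k) + 1)).filter fun a => ¬ ∀ w < q ^ m,
      (unp q k j δ' B : ℝ) / ((q ^ m : ℕ) : ℝ) - ε * len q B ≤ occ q m w (p ^ a * B)) ⊆
      ((range (Nat.log p (q ^ k) + 1)).filter fun a => ¬ ∀ w < q ^ m,
      (unp q k j δ B : ℝ) / ((q ^ m : ℕ) : ℝ) - ε * len q B ≤ occ q m w (p ^ a * B)) := by
    intro a ha
    rw [mem_filter] at ha ⊢
    refine ⟨ha.1, fun hcon => ha.2 fun w hw => le_trans ?_ (hcon w hw)⟩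
    have : (unp q k j δ' B : ℝ) ≤ unp q k j δ B := by exact_mod_cast unp_mono hδ
    gcongr
  exact_mod_cast card_le_card hsub

lemma Concl.or {p q m : ℕ} {ε : ℝ} {P P' : ℕ → ℕ → Prop} (h : Concl p q m ε P)
    (h' : Concl p q m ε P') : Concl p q m ε fun k j => P k j ∨ P' k j := by
  obtain ⟨δ, hδ, hδ1, h⟩ := h
  obtain ⟨δ', hδ', hδ1', h'⟩ := h'
  obtain ⟨k1, h1⟩ := Concl.mono h (min_le_left δ δ')
  obtain ⟨k2, h2⟩ := Concl.mono h' (min_le_right δ δ')
  refine ⟨min δ δ', lt_min hδ hδ', (min_le_left _ _).trans hδ1, max k1 k2, fun k hk j hj => ?_⟩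
  rcases hj with hj | hj
  · exact h1 k ((le_max_left _ _).trans hk) j hj
  · exact h2 k ((le_max_right _ _).trans hk) j hj

lemma concl_of_gauge {p q : ℕ} (hp : 2 ≤ p) (hq : 2 ≤ q)
    (hirr : Irrational (Real.log p / Real.log q)) {g : ℝ → ℝ} (hg : Tendsto g atTop atTop)
    (hdio : Dio (Real.log p) (Real.log q) g) (A' m : ℕ) {ε : ℝ} (hε : 0 < ε) {P : ℕ → ℕ → Prop}
    (hP : ∃ k₀ : ℕ, ∀ k, k₀ ≤ k → ∀ j, P k j → j ≤ k ∧
      (q : ℝ) ^ j ≤ g (Real.log q * ((k + j : ℕ) : ℝ)) ^ A') : Concl p q m ε P := by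
  obtain ⟨δ, hδ, hδ1, k1, h⟩ := core hp hq hirr hg hdio A' m hε
  obtain ⟨k2, hP⟩ := hP
  refine ⟨δ, hδ, hδ1, max k1 k2, fun k hk j hj => ?_⟩
  obtain ⟨h1, h2⟩ := hP k ((le_max_right _ _).trans hk) j hj
  exact h k ((le_max_left _ _).trans hk) j h1 h2

/-- `k ^ A ≤ 2 ^ k` eventually, so `j ≤ k` -/
lemma j_le_k {q : ℕ} (hq : 2 ≤ q) (A : ℕ) : ∃ k₀ : ℕ, ∀ k, k₀ ≤ k → ∀ j : ℕ,
    (q : ℝ) ^ j ≤ (k : ℝ) ^ A → j ≤ k := by
  have h1 : ∀ᶠ k : ℕ in atTop, (k : ℝ) ^ A / (2 : ℝ) ^ k < 1 :=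
    (tendsto_pow_const_div_const_pow_of_one_lt A (by norm_num : (1 : ℝ) < 2)).eventually_lt_const
      one_pos
  obtain ⟨k₀, h⟩ := eventually_atTop.1 h1
  refine ⟨k₀, fun k hk j hj => ?_⟩
  have h2 := h k hk
  rw [div_lt_one (by positivity)] at h2
  have h3 : (2 : ℝ) ^ j ≤ (q : ℝ) ^ j := by
    have : (2 : ℝ) ≤ q := by exact_mod_cast hq
    gcongr
  have h4 : (2 : ℝ) ^ j < (2 : ℝ) ^ k := (h3.trans hj).trans_lt h2
  exact ((pow_lt_pow_iff_right₀ (by norm_num : (1 : ℝ) < 2)).1 h4).le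

theorem concl_scale {p q : ℕ} (hp : 2 ≤ p) (hq : 2 ≤ q)
    (hpq : ∀ x y : ℕ, 0 < x → 0 < y → p ^ x ≠ q ^ y) (A m : ℕ) {ε : ℝ} (hε : 0 < ε) :
    Concl p q m ε (Scale p q A) := by
  have hirr := irr_of_indep hp hq hpq
  have hlq : 0 < Real.log q := Real.log_pos (by exact_mod_cast (by omega : 1 < q))
  obtain ⟨k1, hk1⟩ := j_le_k hq A
  -- the general case
  have h1 : Concl p q m ε fun k j => (q : ℝ) ^ j ≤ Real.exp (A * √(Real.log k)) := by
    obtain ⟨θ, hθ, hdio⟩ := dio_sqrt hp hq hpq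
    obtain ⟨A', hA'⟩ := exists_nat_ge (2 * A / θ)
    rw [div_le_iff₀ hθ] at hA'
    have hg : Tendsto (fun x : ℝ => Real.exp (θ * √(Real.log x))) atTop atTop :=
      Real.tendsto_exp_atTop.comp
        ((Real.tendsto_sqrt_atTop.comp Real.tendsto_log_atTop).const_mul_atTop hθ)
    refine concl_of_gauge hp hq hirr hg hdio A' m hε ?_
    have e1 : ∀ᶠ k : ℕ in atTop, -(2 * Real.log (Real.log q)) ≤ Real.log k :=
      (Real.tendsto_log_atTop.comp tendsto_natCast_atTop_atTop).eventually_ge_atTop _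
    have e2 : ∀ᶠ k : ℕ in atTop, 1 ≤ Real.log k :=
      (Real.tendsto_log_atTop.comp tendsto_natCast_atTop_atTop).eventually_ge_atTop _
    obtain ⟨k2, h2⟩ := eventually_atTop.1 (e1.and (e2.and (eventually_ge_atTop 1)))
    refine ⟨max k1 k2, fun k hk j hj => ?_⟩
    obtain ⟨e3, e4, e5⟩ := h2 k ((le_max_right _ _).trans hk)
    have hkR : (1 : ℝ) ≤ k := by exact_mod_cast e5
    have hk0 : (0 : ℝ) < k := by linarith
    set y : ℝ := √(Real.log k) with hy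
    have hy0 : 0 ≤ y := Real.sqrt_nonneg _
    have hyy : y ^ 2 = Real.log k := Real.sq_sqrt (by linarith)
    have hy1 : 1 ≤ y := by
      rw [hy, Real.one_le_sqrt]; exact e4
    have hAle : Real.exp (A * y) ≤ (k : ℝ) ^ A := by
      calc Real.exp (A * y) ≤ Real.exp (A * Real.log k) := by
            apply Real.exp_le_exp.2
            have : y ≤ Real.log k := by rw [← hyy]; nlinarith
            gcongr
        _ = (k : ℝ) ^ A := by rw [Real.exp_nat_mul, Real.exp_log hk0]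
    refine ⟨hk1 k ((le_max_left _ _).trans hk) j (hj.trans hAle), hj.trans ?_⟩
    have e6 : Real.log k / 2 ≤ Real.log (Real.log q * ((k + j : ℕ) : ℝ)) := by
      have e7 : Real.log (Real.log q * (k : ℝ)) ≤ Real.log (Real.log q * ((k + j : ℕ) : ℝ)) := by
        apply Real.log_le_log (by positivity)
        have : (k : ℝ) ≤ ((k + j : ℕ) : ℝ) := by exact_mod_cast Nat.le_add_right k j
        gcongr
      rw [Real.log_mul hlq.ne' (by positivity)] at e7
      linarith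
    have e7 : y / 2 ≤ √(Real.log (Real.log q * ((k + j : ℕ) : ℝ))) := by
      apply Real.le_sqrt_of_sq_le
      refine le_trans ?_ e6
      rw [← hyy]
      nlinarith
    rw [← Real.exp_nat_mul]
    apply Real.exp_le_exp.2
    have e8 : (0 : ℝ) ≤ A' := Nat.cast_nonneg _
    calc (A : ℝ) * y = (2 * A) * (y / 2) := by ring
      _ ≤ (A' * θ) * (y / 2) := by gcongr
      _ ≤ (A' * θ) * √(Real.log (Real.log q * ((k + j : ℕ) : ℝ))) := by gcongr
      _ = _ := by ring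
  -- the numbers 2 and 3
  have h2 : Concl p q m ε fun k j => (p = 2 ∧ q = 3 ∨ p = 3 ∧ q = 2) ∧ (q : ℝ) ^ j ≤ (k : ℝ) ^ A := by
    by_cases h23 : p = 2 ∧ q = 3 ∨ p = 3 ∧ q = 2
    · obtain ⟨θ, hθ, hdio⟩ : ∃ θ : ℝ, 0 < θ ∧ Dio (Real.log p) (Real.log q) fun x => x ^ θ := by
        obtain ⟨θ, hθ, hdio⟩ := dio_two_three
        refine ⟨θ, hθ, ?_⟩
        rcases h23 with ⟨rfl, rfl⟩ | ⟨rfl, rfl⟩
        · exact hdio
        · unfold Dio at hdio ⊢
          filter_upwards [hdio] with x hx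
          obtain ⟨Q, Q', h1, h2, h3⟩ := hx
          refine ⟨Q', Q, ?_, ?_, ?_⟩
          · rw [abs_sub_comm]; exact h1
          · rw [abs_sub_comm]; exact h2
          · rw [abs_sub_comm, add_comm]; exact h3
      obtain ⟨A', hA'⟩ := exists_nat_ge (((A : ℝ) + 1) / θ)
      rw [div_le_iff₀ hθ] at hA'
      refine concl_of_gauge hp hq hirr (tendsto_rpow_atTop hθ) hdio A' m hε ?_
      obtain ⟨k2, hk2⟩ := exists_nat_ge (1 / Real.log q)
      obtain ⟨k3, hk3⟩ := exists_nat_ge (1 / Real.log q ^ (A + 1))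
      refine ⟨max k1 (max k2 k3), fun k hk j hj => ⟨hk1 k ((le_max_left _ _).trans hk) j hj.2, ?_⟩⟩
      refine hj.2.trans ?_
      have hkk2 : (k2 : ℝ) ≤ k := by
        exact_mod_cast (le_max_left _ _).trans ((le_max_right _ _).trans hk)
      have hkk3 : (k3 : ℝ) ≤ k := by
        exact_mod_cast (le_max_right _ _).trans ((le_max_right _ _).trans hk)
      have e1 : 1 ≤ Real.log q * (k : ℝ) := by
        have := hk2.trans hkk2
        rw [div_le_iff₀ hlq] at this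
        linarith
      have e2 : 1 ≤ Real.log q ^ (A + 1) * (k : ℝ) := by
        have := hk3.trans hkk3
        rw [div_le_iff₀ (by positivity)] at this
        linarith
      have e3 : Real.log q * (k : ℝ) ≤ Real.log q * ((k + j : ℕ) : ℝ) := by
        have : (k : ℝ) ≤ ((k + j : ℕ) : ℝ) := by exact_mod_cast Nat.le_add_right k j
        gcongr
      have e4 : (0 : ℝ) ≤ Real.log q * ((k + j : ℕ) : ℝ) := by positivity
      have hk0 : (0 : ℝ) ≤ k := Nat.cast_nonneg _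
      calc (k : ℝ) ^ A ≤ (k : ℝ) ^ A * (Real.log q ^ (A + 1) * k) := by
            exact le_mul_of_one_le_right (by positivity) e2
        _ = (Real.log q * (k : ℝ)) ^ (A + 1) := by rw [mul_pow, pow_succ (k : ℝ)]; ring
        _ ≤ (Real.log q * ((k + j : ℕ) : ℝ)) ^ (A + 1) := by gcongr
        _ = (Real.log q * ((k + j : ℕ) : ℝ)) ^ ((A : ℝ) + 1) := by
            rw [← Real.rpow_natCast]; push_cast; rfl
        _ ≤ (Real.log q * ((k + j : ℕ) : ℝ)) ^ (θ * (A' : ℝ)) := by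
            apply Real.rpow_le_rpow_of_exponent_le (e1.trans e3)
            linarith
        _ = ((Real.log q * ((k + j : ℕ) : ℝ)) ^ θ) ^ A' := by
            rw [Real.rpow_mul e4, Real.rpow_natCast]
    · exact ⟨1, one_pos, le_rfl, 0, fun k _ j hj => absurd hj.1 h23⟩
  exact h1.or h2

lemma len_mul_le {q : ℕ} (hq : 2 ≤ q) {P k B : ℕ} (hP : P ≤ q ^ k) :
    len q (P * B) ≤ len q B + k := by
  unfold len
  rw [Nat.digits_length_le_iff (by omega)]
  rw [pow_add, mul_comm]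
  calc B * P ≤ B * q ^ k := Nat.mul_le_mul_left B hP
    _ < q ^ (Nat.digits q B).length * q ^ k := by
      apply Nat.mul_lt_mul_of_pos_right
      · exact lt_pow_len hq B
      · exact Nat.pow_pos (by omega)

lemma len_large {q u p : ℕ} (hq : 2 ≤ q) (hp : 2 ≤ p) (hu : 1 ≤ u) (N₀ n : ℕ)
    (hn : q ^ N₀ ≤ n) : N₀ ≤ len q (u * p ^ n) := by
  by_contra hcon
  push Not at hcon
  have h1 := lt_pow_len hq (u * p ^ n)
  have h2 : q ^ len q (u * p ^ n) ≤ q ^ N₀ := Nat.pow_le_pow_right (by omega) hcon.le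
  have h3 : n < 2 ^ n := Nat.lt_two_pow_self
  have h4 : 2 ^ n ≤ p ^ n := Nat.pow_le_pow_left hp n
  have h5 : p ^ n ≤ u * p ^ n := Nat.le_mul_of_pos_left _ hu
  omega

lemma sum_occ {q : ℕ} (hq : 2 ≤ q) (m C : ℕ) : ∑ w ∈ range (q ^ m), occ q m w C = len q C := by
  have h1 : (range (len q C)).card = ∑ w ∈ range (q ^ m),
      ((range (len q C)).filter fun i => C / q ^ i % q ^ m = w).card :=
    card_eq_sum_card_fiberwise fun i _ =>
      mem_coe.2 (mem_range.2 (Nat.mod_lt _ (Nat.pow_pos (by omega))))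
  rw [card_range] at h1
  exact h1.symm

lemma balanced_of_lower {q : ℕ} (hq : 2 ≤ q) {m C : ℕ} {κ ε : ℝ} (hκ : 0 ≤ κ)
    (hκε : ((q ^ m : ℕ) : ℝ) * κ ≤ ε)
    (h : ∀ w < q ^ m, (len q C : ℝ) / ((q ^ m : ℕ) : ℝ) - κ * len q C ≤ occ q m w C) :
    Balanced q m ε C := by
  intro w hw
  set Q : ℕ := q ^ m with hQ
  have hQ1 : 1 ≤ Q := Nat.one_le_pow _ _ (by omega)
  have hQR : (1 : ℝ) ≤ Q := by exact_mod_cast hQ1
  have e0 : (q : ℝ) ^ m = (Q : ℝ) := by rw [hQ]; push_cast; rfl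
  rw [e0]
  have hN0 : (0 : ℝ) ≤ len q C := Nat.cast_nonneg _
  have hκ1 : κ * len q C ≤ ε * len q C := by
    have : κ ≤ ε := le_trans (by nlinarith) hκε
    gcongr
  have h1 := h w hw
  have h2 : (∑ w ∈ range Q, (occ q m w C : ℝ)) = len q C := by
    exact_mod_cast sum_occ hq m C
  have h3 : (∑ w' ∈ (range Q).erase w, (occ q m w' C : ℝ)) + occ q m w C = len q C := by
    rw [← h2, sum_erase_add _ _ (mem_range.2 hw)]
  have h4 : (((range Q).erase w).card : ℝ) * ((len q C : ℝ) / Q - κ * len q C) ≤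
      ∑ w' ∈ (range Q).erase w, (occ q m w' C : ℝ) := by
    rw [← nsmul_eq_mul]
    refine card_nsmul_le_sum _ _ _ fun w' hw' => ?_
    exact h w' (mem_range.1 (mem_of_mem_erase hw'))
  rw [card_erase_of_mem (mem_range.2 hw), card_range] at h4
  have h5 : (((Q - 1 : ℕ)) : ℝ) = (Q : ℝ) - 1 := by push_cast [Nat.cast_sub hQ1]; ring
  rw [h5] at h4
  have h6 : (occ q m w C : ℝ) ≤ len q C / Q + Q * κ * len q C := by
    have e1 : ((Q : ℝ) - 1) * ((len q C : ℝ) / Q - κ * len q C) =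
        len q C - len q C / Q - (Q - 1) * κ * len q C := by field_simp
    rw [e1] at h4
    have e2 : ((Q : ℝ) - 1) * κ * len q C ≤ Q * κ * len q C := by
      have : ((Q : ℝ) - 1) * κ ≤ Q * κ := by nlinarith
      gcongr
    linarith
  have h7 : (Q : ℝ) * κ * len q C ≤ ε * len q C := by gcongr
  rw [abs_le]
  constructor <;> linarith

end Pool.Agent.H42UP
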