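import Pool.Graph.R_seed8.TH888.B1.Arch
import Pool.Agent.H42UP.Core

/-!
Linear forms in two fixed logarithms, and the Diophantine hypothesis with the function
`exp (θ √(log x))`.
-/

set_option autoImplicit false

namespace Pool.Agent.H42UP

open Filter Topology
open Pool.Agent.TH888.B1 (log_sub_ge')
open Pool.Agent.H806.Gap

/-- lower bound for a linear form in two logarithms of given integers -/
theorem two_logs {A U : ℕ} (hA : 2 ≤ A) (hU : 2 ≤ U) : ∃ C : ℝ, 0 < C ∧ ∀ k m : ℕ, 1 ≤ k → 1 ≤ m →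
    U ^ k ≠ A ^ m → Real.exp (-(C * (1 + Real.log k) ^ 2)) ≤ |k * Real.log U - m * Real.log A| := by
  obtain ⟨hY1, hY2, hY3, hY4⟩ := Pool.Agent.H374R2.W.QM.ceil_facts hA
  obtain ⟨hZ1, hZ2, hZ3, hZ4⟩ := Pool.Agent.H374R2.W.QM.ceil_facts hU
  obtain ⟨Y, hY⟩ : ∃ Y, Y = ⌈Real.log A⌉₊ := ⟨_, rfl⟩
  obtain ⟨Z, hZ⟩ : ∃ Z, Z = ⌈Real.log U⌉₊ := ⟨_, rfl⟩
  rw [← hY] at hY1 hY2 hY3 hY4
  rw [← hZ] at hZ1 hZ2 hZ3 hZ4
  have hYR : (1 : ℝ) ≤ Y := by exact_mod_cast hY1
  have hZR : (1 : ℝ) ≤ Z := by exact_mod_cast hZ1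
  have hAR : (2 : ℝ) ≤ A := by exact_mod_cast hA
  have hUR : (2 : ℝ) ≤ U := by exact_mod_cast hU
  refine ⟨20880 * Y * Z * 625 + (A * (145 * Z * 25) + U + 1), by positivity, ?_⟩
  intro k m hk hm hne
  obtain ⟨g, hg⟩ : ∃ g, g = Nat.gcd k m := ⟨_, rfl⟩
  have hg0 : 0 < g := by rw [hg]; exact Nat.gcd_pos_of_pos_left _ hk
  obtain ⟨b, hb⟩ : g ∣ k := by rw [hg]; exact Nat.gcd_dvd_left _ _
  obtain ⟨a, ha⟩ : g ∣ m := by rw [hg]; exact Nat.gcd_dvd_right _ _
  have hcop : Nat.Coprime a b := by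
    have h1 : Nat.gcd (g * b) (g * a) = g := by rw [← hb, ← ha, ← hg]
    rw [Nat.gcd_mul_left] at h1
    have h2 : Nat.gcd b a = 1 := Nat.eq_of_mul_eq_mul_left hg0 (by rw [h1, mul_one])
    exact Nat.Coprime.symm h2
  have hb1 : 1 ≤ b := Nat.pos_of_ne_zero (by rintro rfl; simp at hb; omega)
  have ha1 : 1 ≤ a := Nat.pos_of_ne_zero (by rintro rfl; simp at ha; omega)
  have hne' : U ^ b ≠ A ^ a := by
    intro h
    apply hne
    rw [hb, ha, mul_comm g b, mul_comm g a, pow_mul, pow_mul, h]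
  have hred : |b * Real.log U - a * Real.log A| ≤ |k * Real.log U - m * Real.log A| := by
    have h1 : (k : ℝ) * Real.log U - m * Real.log A = g * (b * Real.log U - a * Real.log A) := by
      rw [hb, ha]; push_cast; ring
    rw [h1, abs_mul, Nat.abs_cast]
    have h2 : (1 : ℝ) ≤ g := by exact_mod_cast hg0
    exact le_mul_of_one_le_left (abs_nonneg _) h2
  refine le_trans ?_ hred
  have hbk : b ≤ k := (Nat.le_mul_of_pos_left b hg0).trans_eq hb.symm
  obtain ⟨L, hL⟩ : ∃ L, L = ⌈8 * (3 + Real.log b)⌉₊ := ⟨_, rfl⟩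
  have hlogb0 : 0 ≤ Real.log b := Real.log_nonneg (by exact_mod_cast hb1)
  have hlogbk : Real.log b ≤ Real.log k :=
    Real.log_le_log (by exact_mod_cast hb1) (by exact_mod_cast hbk)
  have hL1 : 8 * (3 + Real.log b) ≤ (L : ℝ) := by rw [hL]; exact Nat.le_ceil _
  have hL2 : (L : ℝ) < 8 * (3 + Real.log b) + 1 := by
    rw [hL]; exact Nat.ceil_lt_add_one (by positivity)
  have hLS : (L : ℝ) ≤ 25 * (1 + Real.log k) := by linarith
  have hL3 : 1 ≤ L := by
    have : (1 : ℝ) ≤ L := by linarith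
    exact_mod_cast this
  have hlk0 : 0 ≤ Real.log k := hlogb0.trans hlogbk
  set t : ℝ := 1 + Real.log k with ht
  have ht1 : 1 ≤ t := by linarith
  have ht2 : t ≤ t ^ 2 := by nlinarith
  by_cases hcase : 2 ≤ b ∧ 145 * Z * L ≤ a
  · have h1 := Pool.Agent.H374R2.W.QL.lfl hA hU ha1 hcase.1 hcop hY1 hZ1 hL3 hY2 hZ2 hY3 hZ3
      hcase.2 hL1
    refine le_trans (Real.exp_le_exp.mpr ?_) h1.le
    rw [neg_le_neg_iff]
    have e3 : (L : ℝ) ^ 2 ≤ (25 * t) ^ 2 := pow_le_pow_left₀ (Nat.cast_nonneg _) hLS 2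
    calc 20880 * (Y : ℝ) * Z * (L : ℝ) ^ 2 ≤ 20880 * Y * Z * (25 * t) ^ 2 := by gcongr
      _ = 20880 * Y * Z * 625 * t ^ 2 := by ring
      _ ≤ (20880 * Y * Z * 625 + (A * (145 * Z * 25) + U + 1)) * t ^ 2 := by
          have : (0 : ℝ) ≤ (A * (145 * Z * 25) + U + 1) * t ^ 2 := by positivity
          linarith
  · have h1 : Real.log ((U ^ b : ℕ) : ℝ) - Real.log ((A ^ a : ℕ) : ℝ) =
        b * Real.log U - a * Real.log A := by
      push_cast
      rw [Real.log_pow, Real.log_pow]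
    rw [← h1]
    have hE : U ^ b ≤ 2 ^ (A * (145 * Z * L) + U) ∨ A ^ a ≤ 2 ^ (A * (145 * Z * L) + U) := by
      rcases Nat.lt_or_ge b 2 with h2 | h2
      · left
        have : b = 1 := by omega
        rw [this, pow_one]
        exact (Nat.lt_two_pow_self (n := U)).le.trans (Nat.pow_le_pow_right (by norm_num) (by omega))
      · right
        have h3 : a < 145 * Z * L := by
          by_contra h; exact hcase ⟨h2, by omega⟩
        calc A ^ a ≤ (2 ^ A) ^ a := Nat.pow_le_pow_left (Nat.lt_two_pow_self (n := A)).le a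
          _ = 2 ^ (A * a) := by rw [← pow_mul]
          _ ≤ 2 ^ (A * (145 * Z * L) + U) := Nat.pow_le_pow_right (by norm_num)
              ((Nat.mul_le_mul_left _ h3.le).trans (Nat.le_add_right _ _))
    refine le_trans (Real.exp_le_exp.mpr ?_)
      (log_sub_ge' (Nat.one_le_pow _ _ (by omega)) (Nat.one_le_pow _ _ (by omega)) hne' hE)
    rw [neg_le_neg_iff]
    push_cast
    calc (A : ℝ) * (145 * Z * L) + U + 1 ≤ A * (145 * Z * (25 * t)) + U + 1 := by gcongr
      _ = A * (145 * Z * 25) * t + U + 1 := by ring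
      _ ≤ A * (145 * Z * 25) * t ^ 2 + U * t ^ 2 + 1 * t ^ 2 := by
          have h0 : (0 : ℝ) ≤ A * (145 * Z * 25) := by positivity
          have h2 : (1 : ℝ) ≤ t ^ 2 := by nlinarith
          have h3 : (0 : ℝ) ≤ U := by linarith
          have h4 : A * (145 * Z * 25) * t ≤ A * (145 * Z * 25) * t ^ 2 := by gcongr
          have h5 : (U : ℝ) ≤ U * t ^ 2 := le_mul_of_one_le_right h3 h2
          linarith
      _ ≤ (20880 * Y * Z * 625 + (A * (145 * Z * 25) + U + 1)) * t ^ 2 := by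
          have : (0 : ℝ) ≤ 20880 * Y * Z * 625 * t ^ 2 := by positivity
          linarith

/-- the Diophantine hypothesis from the linear forms in two logarithms -/
theorem dio_sqrt {p q : ℕ} (hp : 2 ≤ p) (hq : 2 ≤ q)
    (hpq : ∀ x y : ℕ, 0 < x → 0 < y → p ^ x ≠ q ^ y) :
    ∃ θ : ℝ, 0 < θ ∧ Dio (Real.log p) (Real.log q) fun x => Real.exp (θ * √(Real.log x)) := by
  have hα : 0 < Real.log p := Real.log_pos (by exact_mod_cast (by omega : 1 < p))
  have hβ : 0 < Real.log q := Real.log_pos (by exact_mod_cast (by omega : 1 < q))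
  obtain ⟨C, hC, hlow⟩ := two_logs (A := q) (U := p) hq hp
  set α := Real.log p with hαd
  set β := Real.log q with hβd
  set C1 : ℝ := α / β + 2 with hC1
  have hC10 : 0 < C1 := by positivity
  set θ : ℝ := min 1 (1 / (36 * C)) with hθ
  have hθ0 : 0 < θ := by positivity
  have hθ1 : θ ≤ 1 := min_le_left _ _
  have hθC : 9 * C * θ ^ 2 ≤ 1 / 4 := by
    have h1 : θ ≤ 1 / (36 * C) := min_le_right _ _
    rw [le_div_iff₀ (by positivity)] at h1
    nlinarith
  refine ⟨θ, hθ0, ?_⟩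
  have hsq : Tendsto (fun x : ℝ => √(Real.log x)) atTop atTop :=
    Real.tendsto_sqrt_atTop.comp Real.tendsto_log_atTop
  have h1 : ∀ᶠ x : ℝ in atTop, 1 / θ ≤ √(Real.log x) := hsq.eventually_ge_atTop _
  have h2 : ∀ᶠ x : ℝ in atTop, Real.log (β + β / α + 1) / θ ≤ √(Real.log x) :=
    hsq.eventually_ge_atTop _
  have h3 : ∀ᶠ x : ℝ in atTop, 16 * θ + 4 * Real.log C1 + 1 ≤ √(Real.log x) :=
    hsq.eventually_ge_atTop _
  unfold Dio
  filter_upwards [h1, h2, h3, eventually_ge_atTop 1] with x hx1 hx2 hx3 hx4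
  have hx0 : 0 < x := by linarith
  set y : ℝ := √(Real.log x) with hy
  have hy0 : 0 ≤ y := Real.sqrt_nonneg _
  have hyy : y ^ 2 = Real.log x := Real.sq_sqrt (Real.log_nonneg hx4)
  have hθy : 1 ≤ θ * y := by
    rw [div_le_iff₀ hθ0] at hx1; linarith
  set X : ℕ := ⌊Real.exp (2 * θ * y)⌋₊ with hX
  have hexp1 : 1 ≤ Real.exp (2 * θ * y) := Real.one_le_exp (by positivity)
  have hX1 : 1 ≤ X := (Nat.one_le_floor_iff _).2 hexp1
  have hX1R : (1 : ℝ) ≤ X := by exact_mod_cast hX1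
  have hXle : (X : ℝ) ≤ Real.exp (2 * θ * y) := Nat.floor_le (by positivity)
  have hXlt : Real.exp (2 * θ * y) < X + 1 := Nat.lt_floor_add_one _
  obtain ⟨Q, Q', hQ0, hQX, hQ', hδ⟩ := dirichlet hα hβ hX1
  set δ : ℝ := |(Q : ℝ) * α - Q' * β| with hδd
  have hbig : β + β / α + 1 ≤ Real.exp (θ * y) := by
    have h5 : Real.log (β + β / α + 1) ≤ θ * y := by
      rw [div_le_iff₀ hθ0] at hx2; linarith
    calc β + β / α + 1 = Real.exp (Real.log (β + β / α + 1)) := by
          rw [Real.exp_log (by positivity)]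
      _ ≤ _ := Real.exp_le_exp.2 h5
  have hbα : 0 < β / α := by positivity
  have hexp2 : Real.exp (2 * θ * y) = Real.exp (θ * y) * Real.exp (θ * y) := by
    rw [← Real.exp_add]; congr 1; ring
  have hδg : δ * Real.exp (θ * y) ≤ 1 := by
    calc δ * Real.exp (θ * y) ≤ β / (X + 1) * Real.exp (θ * y) := by gcongr
      _ = β * Real.exp (θ * y) / (X + 1) := by ring
      _ ≤ 1 := by
        rw [div_le_one (by positivity)]
        have h5 : β ≤ Real.exp (θ * y) := by linarith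
        calc β * Real.exp (θ * y) ≤ Real.exp (θ * y) * Real.exp (θ * y) := by gcongr
          _ = Real.exp (2 * θ * y) := hexp2.symm
          _ ≤ X + 1 := hXlt.le
  have hQR : (1 : ℝ) ≤ Q := by exact_mod_cast hQ0
  have hQ'1 : 1 ≤ Q' := by
    by_contra hcon
    have hQ'0 : Q' = 0 := by omega
    rw [hQ'0, Nat.cast_zero, zero_mul, sub_zero, abs_of_nonneg (by positivity)] at hδd
    have h5 : α ≤ δ := by rw [hδd]; nlinarith
    have h6 : δ * Real.exp (θ * y) ≤ 1 := hδg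
    have h7 : α * Real.exp (θ * y) ≤ 1 := le_trans (by gcongr) h6
    have h8 : β ≤ β / (X + 1) * (X + 1) := by field_simp; rfl
    have h9 : α ≤ β / (X + 1) := h5.trans hδ
    rw [le_div_iff₀ (by positivity)] at h9
    have h10 : α * Real.exp (θ * y) ≤ β := by
      calc α * Real.exp (θ * y) ≤ α * Real.exp (2 * θ * y) := by
            gcongr
            linarith
        _ ≤ α * (X + 1) := by gcongr
        _ ≤ β := h9
    have h11 : β / α < Real.exp (θ * y) := by linarith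
    rw [div_lt_iff₀ hα] at h11
    linarith
  have hne : p ^ Q ≠ q ^ Q' := hpq Q Q' hQ0 hQ'1
  have hl := hlow Q Q' hQ0 hQ'1 hne
  have hδlow : Real.exp (-(y ^ 2 / 4)) ≤ δ := by
    refine le_trans (Real.exp_le_exp.2 ?_) hl
    rw [neg_le_neg_iff]
    have h5 : Real.log Q ≤ 2 * θ * y := by
      have h6 : (Q : ℝ) ≤ Real.exp (2 * θ * y) :=
        le_trans (by exact_mod_cast hQX) hXle
      have h7 := Real.log_le_log (by linarith) h6
      rwa [Real.log_exp] at h7
    have h6 : 0 ≤ Real.log Q := Real.log_nonneg hQR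
    have h7 : (1 + Real.log Q) ^ 2 ≤ (3 * (θ * y)) ^ 2 := by
      apply pow_le_pow_left₀ (by linarith)
      linarith
    calc C * (1 + Real.log Q) ^ 2 ≤ C * (3 * (θ * y)) ^ 2 := by gcongr
      _ = (9 * C * θ ^ 2) * y ^ 2 := by ring
      _ ≤ 1 / 4 * y ^ 2 := by gcongr
      _ = y ^ 2 / 4 := by ring
  have hδ0 : 0 < δ := (Real.exp_pos _).trans_le hδlow
  refine ⟨Q, Q', hδ0, hδg, ?_⟩
  have hsum : (Q : ℝ) + Q' ≤ C1 * Real.exp (2 * θ * y) := by
    have h5 : (Q : ℝ) ≤ X := by exact_mod_cast hQX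
    have h6 : (Q : ℝ) + Q' ≤ C1 * X := by rw [hC1]; linarith
    refine h6.trans ?_
    gcongr
  refine hsum.trans ?_
  have hsx : √x = Real.exp (y ^ 2 / 2) := by
    rw [hyy, ← Real.exp_log (show (0 : ℝ) < √x by positivity), Real.log_sqrt hx0.le]
  rw [hsx]
  calc C1 * Real.exp (2 * θ * y) = Real.exp (Real.log C1 + 2 * θ * y) := by
        rw [Real.exp_add, Real.exp_log hC10]
    _ ≤ Real.exp (-(y ^ 2 / 4) + y ^ 2 / 2) := by
        apply Real.exp_le_exp.2
        have h5 : 0 ≤ θ := hθ0.le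
        have hy1 : 1 ≤ y := hθy.trans (by nlinarith)
        have hl0 : 0 ≤ Real.log C1 := Real.log_nonneg (by
          have : 0 < α / β := by positivity
          linarith)
        have h6 : y * (16 * θ + 4 * Real.log C1 + 1) ≤ y * y := by gcongr
        have h7 : Real.log C1 * 1 ≤ Real.log C1 * y := by gcongr
        have h8 : 0 ≤ θ * y := by positivity
        nlinarith
    _ = Real.exp (-(y ^ 2 / 4)) * Real.exp (y ^ 2 / 2) := Real.exp_add _ _
    _ ≤ δ * Real.exp (y ^ 2 / 2) := by gcongr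

end Pool.Agent.H42UP
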