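import Pool.Agent.H42UP.Cnt

/-!
The number of the words of `K` digits in which some digit is rare, and a continuous majorant of the
corresponding arcs of the circle.
-/

set_option autoImplicit false

namespace Pool.Agent.H42UP

open Finset MeasureTheory
open Pool.Agent.W764.FB (T)

/-- the number of the `t < K` such that the `t`-th digit of `V` in base `Q` is `w` -/
def cw (Q K w V : ℕ) : ℕ := ((range K).filter fun t => V / Q ^ t % Q = w).card

lemma sum_range_mul' {M : Type} [AddCommMonoid M] (N Q : ℕ) (f : ℕ → M) :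
    ∑ V ∈ range (N * Q), f V = ∑ V ∈ range N, ∑ d ∈ range Q, f (V * Q + d) := by
  induction N with
  | zero => simp
  | succ N ih => rw [add_mul, one_mul, sum_range_add, ih, sum_range_succ]

lemma cw_succ {Q : ℕ} (K w V d : ℕ) (hd : d < Q) :
    cw Q (K + 1) w (V * Q + d) = (if d = w then 1 else 0) + cw Q K w V := by
  unfold cw
  rw [card_filter, card_filter, sum_range_succ', add_comm]
  have hQ : 0 < Q := by omega
  congr 1
  · rw [pow_zero, Nat.div_one, Nat.mul_add_mod_self_right, Nat.mod_eq_of_lt hd]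
  · refine sum_congr rfl fun t _ => ?_
    have h1 : (V * Q + d) / Q ^ (t + 1) = V / Q ^ t := by
      rw [pow_succ', ← Nat.div_div_eq_div_mul, mul_comm V Q, Nat.mul_add_div hQ,
        Nat.div_eq_of_lt hd, add_zero]
    rw [h1]

lemma var_le {Q w : ℕ} (hw : w < Q) (K : ℕ) :
    ∑ V ∈ range (Q ^ K), ((cw Q K w V : ℝ) - K / Q) ^ 2 ≤ K * (Q : ℝ) ^ K := by
  have hQ0 : (0 : ℝ) < Q := by exact_mod_cast (by omega : 0 < Q)
  have hQ1 : (1 : ℝ) ≤ Q := by exact_mod_cast (by omega : 1 ≤ Q)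
  induction K with
  | zero => simp [cw]
  | succ K ih =>
    rw [pow_succ, sum_range_mul']
    have h1 : ∀ V ∈ range (Q ^ K), ∑ d ∈ range Q,
        ((cw Q (K + 1) w (V * Q + d) : ℝ) - ((K + 1 : ℕ) : ℝ) / Q) ^ 2 =
        (1 - 1 / (Q : ℝ)) + Q * ((cw Q K w V : ℝ) - K / Q) ^ 2 := by
      intro V _
      have h2 : ∀ d ∈ range Q, ((cw Q (K + 1) w (V * Q + d) : ℝ) - ((K + 1 : ℕ) : ℝ) / Q) ^ 2 =
          (if d = w then (1 - 2 / (Q : ℝ)) + 2 * ((cw Q K w V : ℝ) - K / Q) else 0) +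
            (1 / (Q : ℝ) ^ 2 - 2 / Q * ((cw Q K w V : ℝ) - K / Q) +
              ((cw Q K w V : ℝ) - K / Q) ^ 2) := by
        intro d hd
        rw [cw_succ K w V d (mem_range.1 hd)]
        push_cast
        split_ifs
        · field_simp; ring
        · field_simp; ring
      rw [sum_congr rfl h2, sum_add_distrib, sum_ite_eq', if_pos (mem_range.2 hw), sum_const,
        card_range, nsmul_eq_mul]
      field_simp
      ring
    rw [sum_congr rfl h1, sum_add_distrib, sum_const, card_range, nsmul_eq_mul, ← mul_sum]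
    push_cast
    have h3 : 0 ≤ 1 / (Q : ℝ) := by positivity
    have h4 : 0 < (Q : ℝ) ^ K := by positivity
    have h5 : (Q : ℝ) ^ K * (1 - 1 / (Q : ℝ)) ≤ (Q : ℝ) ^ K * Q := by
      gcongr; linarith
    have h6 : (Q : ℝ) * ∑ V ∈ range (Q ^ K), ((cw Q K w V : ℝ) - K / Q) ^ 2 ≤
        Q * (K * (Q : ℝ) ^ K) := by gcongr
    calc _ ≤ (Q : ℝ) ^ K * Q + Q * (K * (Q : ℝ) ^ K) := add_le_add h5 h6
      _ = _ := by rw [pow_succ]; ring

/-- the words of `K` digits in base `Q` in which some digit is rare -/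
noncomputable def badW (Q K : ℕ) (ε : ℝ) : Finset ℕ := by
  classical
  exact (range (Q ^ K)).filter fun V => ∃ w < Q, (cw Q K w V : ℝ) < (1 / Q - ε) * K

lemma mem_badW {Q K : ℕ} {ε : ℝ} {V : ℕ} : V ∈ badW Q K ε ↔
    V < Q ^ K ∧ ∃ w < Q, (cw Q K w V : ℝ) < (1 / Q - ε) * K := by
  classical
  unfold badW
  rw [mem_filter, mem_range]

lemma card_badW {Q K : ℕ} (hK : 1 ≤ K) {ε : ℝ} (hε : 0 < ε) :
    ((badW Q K ε).card : ℝ) ≤ Q * ((Q : ℝ) ^ K / (ε ^ 2 * K)) := by
  classical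
  have hKR : (0 : ℝ) < K := by exact_mod_cast hK
  have h1 : badW Q K ε ⊆ (range Q).biUnion fun w =>
      (range (Q ^ K)).filter fun V => (cw Q K w V : ℝ) < (1 / Q - ε) * K := by
    intro V hV
    obtain ⟨h1, w, hw, h2⟩ := mem_badW.1 hV
    rw [mem_biUnion]
    exact ⟨w, mem_range.2 hw, mem_filter.2 ⟨mem_range.2 h1, h2⟩⟩
  have h2 : ∀ w ∈ range Q, ((((range (Q ^ K)).filter fun V =>
      (cw Q K w V : ℝ) < (1 / Q - ε) * K).card : ℕ) : ℝ) ≤ (Q : ℝ) ^ K / (ε ^ 2 * K) := by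
    intro w hw
    have h3 := var_le (mem_range.1 hw) K
    rw [le_div_iff₀ (by positivity)]
    have h4 : (((range (Q ^ K)).filter fun V => (cw Q K w V : ℝ) < (1 / Q - ε) * K).card : ℝ) *
        (ε * K) ^ 2 ≤ ∑ V ∈ range (Q ^ K), ((cw Q K w V : ℝ) - K / Q) ^ 2 := by
      rw [← nsmul_eq_mul, ← sum_const]
      refine le_trans (sum_le_sum fun V hV => ?_)
        (sum_le_sum_of_subset_of_nonneg (filter_subset _ _) fun V _ _ => sq_nonneg _)
      rw [mem_filter] at hV
      have h5 := hV.2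
      have h6 : ε * K ≤ K / Q - (cw Q K w V : ℝ) := by
        have e : (1 / (Q : ℝ) - ε) * K = K / Q - ε * K := by ring
        rw [e] at h5
        linarith
      have h7 : 0 ≤ ε * K := by positivity
      nlinarith
    have h8 : (((range (Q ^ K)).filter fun V => (cw Q K w V : ℝ) < (1 / Q - ε) * K).card : ℝ) *
        (ε ^ 2 * K) * K ≤ (Q : ℝ) ^ K * K := by
      calc _ = (((range (Q ^ K)).filter fun V => (cw Q K w V : ℝ) < (1 / Q - ε) * K).card : ℝ) *
        (ε * K) ^ 2 := by ring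
        _ ≤ _ := h4.trans h3
        _ = _ := by ring
    exact le_of_mul_le_mul_right h8 hKR
  have h3 : ((badW Q K ε).card : ℝ) ≤ ∑ w ∈ range Q, (((range (Q ^ K)).filter fun V =>
      (cw Q K w V : ℝ) < (1 / Q - ε) * K).card : ℝ) := by
    exact_mod_cast (card_le_card h1).trans card_biUnion_le
  refine h3.trans ((sum_le_card_nsmul _ _ _ h2).trans (le_of_eq ?_))
  rw [card_range, nsmul_eq_mul]

/-- a continuous majorant of finitely many arcs -/
lemma exists_major (D : ℕ) (hD : 1 ≤ D) (S : Finset ℕ) : ∃ G : T → ℝ, Continuous G ∧ (∀ y, 0 ≤ G y) ∧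
    (∀ V ∈ S, ∀ y : T, ‖y - ((((V : ℝ) + 1 / 2) / D : ℝ) : T)‖ ≤ 1 / (2 * D) → 1 ≤ G y) ∧
    ∫ y, G y ∂(volume : Measure T) ≤ 2 * S.card / D := by
  have hD0 : (0 : ℝ) < D := by exact_mod_cast hD
  set φ : T → ℝ := fun z => max 0 (min 1 (2 - 2 * D * ‖z‖)) with hφ
  have hφc : Continuous φ := by fun_prop
  have hφ0 : ∀ z, 0 ≤ φ z := fun z => le_max_left _ _
  have hφ1 : ∀ z, φ z ≤ 1 := fun z => max_le zero_le_one (min_le_left _ _)
  set c : ℕ → T := fun V => ((((V : ℝ) + 1 / 2) / D : ℝ) : T) with hc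
  have hint : ∀ V, Integrable (fun y => φ (y - c V)) (volume : Measure T) := fun V =>
    Integrable.of_bound (hφc.comp (continuous_id.sub continuous_const)).aestronglyMeasurable 1
      (Filter.Eventually.of_forall fun y => by
        rw [Real.norm_of_nonneg (hφ0 _)]; exact hφ1 _)
  refine ⟨fun y => ∑ V ∈ S, φ (y - c V), ?_, ?_, ?_, ?_⟩
  · exact continuous_finsetSum _ fun V _ => hφc.comp (continuous_id.sub continuous_const)
  · exact fun y => sum_nonneg fun V _ => hφ0 _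
  · intro V hV y hy
    refine le_trans ?_ (single_le_sum (f := fun V => φ (y - c V)) (fun V _ => hφ0 _) hV)
    show 1 ≤ max 0 (min 1 (2 - 2 * D * ‖y - c V‖))
    refine le_max_of_le_right (le_min le_rfl ?_)
    have h1 : 2 * (D : ℝ) * ‖y - c V‖ ≤ 2 * D * (1 / (2 * D)) := by gcongr
    have h2 : 2 * (D : ℝ) * (1 / (2 * D)) = 1 := by field_simp
    linarith
  · rw [integral_finsetSum _ fun V _ => hint V]
    have h1 : ∀ V ∈ S, ∫ y, φ (y - c V) ∂(volume : Measure T) ≤ 2 / D := by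
      intro V _
      have h2 : ∫ y, φ (y - c V) ∂(volume : Measure T) ≤
          ∫ y, (Metric.closedBall (c V) (1 / D)).indicator (fun _ => (1 : ℝ)) y
            ∂(volume : Measure T) := by
        refine integral_mono (hint V) ((integrable_const _).indicator measurableSet_closedBall)
          fun y => ?_
        by_cases hy : y ∈ Metric.closedBall (c V) (1 / D)
        · rw [Set.indicator_of_mem hy]; exact hφ1 _
        · rw [Set.indicator_of_notMem hy]
          rw [Metric.mem_closedBall, dist_eq_norm, not_le] at hy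
          show max 0 (min 1 (2 - 2 * D * ‖y - c V‖)) ≤ 0
          refine max_le le_rfl (min_le_of_right_le ?_)
          have h3 : 2 * (D : ℝ) * (1 / D) ≤ 2 * D * ‖y - c V‖ := by gcongr
          have h4 : 2 * (D : ℝ) * (1 / D) = 2 := by field_simp
          linarith
      refine h2.trans ?_
      rw [integral_indicator_const _ measurableSet_closedBall, smul_eq_mul, mul_one,
        measureReal_def, AddCircle.volume_closedBall]
      refine (ENNReal.toReal_mono ENNReal.ofReal_ne_top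
        (ENNReal.ofReal_le_ofReal (min_le_right _ _))).trans ?_
      rw [ENNReal.toReal_ofReal (by positivity)]
      exact le_of_eq (by ring)
    refine (sum_le_card_nsmul _ _ _ h1).trans (le_of_eq ?_)
    rw [nsmul_eq_mul]
    ring

/-- the arc of the points with given first digits -/
lemma digit_arc {q : ℕ} (hq : 2 ≤ q) (C : ℕ) {e l : ℕ} (hle : l ≤ e) :
    ‖((((C : ℝ) / (q : ℝ) ^ e : ℝ)) : T) -
      (((((C / q ^ (e - l) % q ^ l : ℕ) : ℝ) + 1 / 2) / ((q ^ l : ℕ) : ℝ) : ℝ) : T)‖ ≤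
        1 / (2 * ((q ^ l : ℕ) : ℝ)) := by
  have hq0 : 0 < q := by omega
  have hqR : (0 : ℝ) < q := by exact_mod_cast hq0
  set F : ℕ := C / q ^ (e - l) with hF
  set V : ℕ := F % q ^ l with hV
  set u : ℕ := F / q ^ l with hu
  set ρ : ℕ := C % q ^ (e - l) with hρ
  have h1 : C = q ^ (e - l) * F + ρ := (Nat.div_add_mod C _).symm
  have h2 : F = q ^ l * u + V := (Nat.div_add_mod F _).symm
  have h3 : ρ < q ^ (e - l) := Nat.mod_lt _ (Nat.pow_pos hq0)
  have hl0 : (0 : ℝ) < (q : ℝ) ^ l := by positivity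
  have hel0 : (0 : ℝ) < (q : ℝ) ^ (e - l) := by positivity
  have h3R : (ρ : ℝ) < (q : ℝ) ^ (e - l) := by exact_mod_cast h3
  have hρ0 : (0 : ℝ) ≤ ρ := Nat.cast_nonneg _
  have h4 : (q : ℝ) ^ e = (q : ℝ) ^ (e - l) * (q : ℝ) ^ l := by
    rw [← pow_add, Nat.sub_add_cancel hle]
  have h5 : (C : ℝ) / (q : ℝ) ^ e - ((V : ℝ) + 1 / 2) / ((q ^ l : ℕ) : ℝ) =
      (ρ / (q : ℝ) ^ (e - l) - 1 / 2) / (q : ℝ) ^ l + (u : ℝ) := by
    have h6 : (C : ℝ) = (q : ℝ) ^ (e - l) * ((q : ℝ) ^ l * u + V) + ρ := by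
      have e1 : (C : ℝ) = (q : ℝ) ^ (e - l) * (F : ℝ) + ρ := by exact_mod_cast h1
      have e2 : (F : ℝ) = (q : ℝ) ^ l * u + V := by exact_mod_cast h2
      rw [e1, e2]
    rw [h6, h4]
    push_cast
    field_simp
    ring
  rw [← AddCircle.coe_sub, h5, AddCircle.coe_add]
  have h6 : (((u : ℝ) : ℝ) : T) = 0 := by
    have := AddCircle.coe_eq_zero_iff (1 : ℝ) (x := (u : ℝ))
    rw [this]
    exact ⟨u, by simp⟩
  rw [h6, add_zero]
  refine (Pool.Agent.H806.Gap.norm_coe_le _).trans ?_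
  rw [abs_div, abs_of_pos hl0, div_le_iff₀ hl0]
  push_cast
  have h7 : 1 / (2 * (q : ℝ) ^ l) * (q : ℝ) ^ l = 1 / 2 := by field_simp
  rw [h7, abs_le]
  have h8 : (ρ : ℝ) / (q : ℝ) ^ (e - l) ≤ 1 := by
    rw [div_le_one hel0]; exact h3R.le
  have h9 : 0 ≤ (ρ : ℝ) / (q : ℝ) ^ (e - l) := by positivity
  constructor <;> linarith

end Pool.Agent.H42UP
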