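import Pool.Graph.R_pool_sql_team_seeded_620a6dc7.H806_Gap.Crit
import Pool.Graph.R_pool_sql_team_seeded_620a6dc7.H806_Gap.Dio

/-!
The exponential sums over long windows of the semigroup of `p` and `q`, and the criterion at a
single scale, with the window made explicit (variants of `H806_Gap.Exp` and `H806_Gap.Crit`).
-/

set_option autoImplicit false

open Finset Filter Topology

namespace Pool.Agent.H42UP

open Pool.Agent.H806.Gap
open Pool.Agent.H469R2.NK (e norm_e e_add conj_e e_zero)
open Pool.Agent.W764.FB (T)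
open Pool.Agent.W764.SH (cnt slab slab_finite)
open Pool.Agent.W764.HL (win mem_win card_win coe_win card_large eq_or_neg exists_rep)

/-- **Exponential sums over a window.** -/
theorem exp_win_long {p q : ℕ} (hp : 2 ≤ p) (hq : 2 ≤ q) (hirr : Irrational (Real.log p / Real.log q))
    {g : ℝ → ℝ} (hg : Tendsto g atTop atTop) (hdio : Dio (Real.log p) (Real.log q) g) (A M : ℕ)
    {η : ℝ} (hη : 0 < η) (L1 : ℝ) : ∃ H : ℝ, 1 < H ∧ L1 ≤ Real.log H ∧ ∃ τ0 : ℝ, 0 < τ0 ∧
      ∀ τ : ℝ, 0 < τ → τ < τ0 → (win p q (1 / τ) (H / τ)).Nonempty ∧ ∀ z : T, τ ≤ ‖z‖ →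
        ‖z‖ ≤ g (-Real.log τ) ^ A * τ → ∀ m : ℤ, m ≠ 0 → |m| ≤ M →
          ‖∑ n ∈ win p q (1 / τ) (H / τ), (fourier m (n • z) : ℂ)‖ ≤
            η * (win p q (1 / τ) (H / τ)).card := by
  classical
  have hlp : 0 < Real.log p := Real.log_pos (by exact_mod_cast (by omega : 1 < p))
  have hlq : 0 < Real.log q := Real.log_pos (by exact_mod_cast (by omega : 1 < q))
  obtain ⟨L0, hL0⟩ := slab_sum hlp hlq hirr hg hdio A (M := (M : ℝ) + 1)
    (by have : (0 : ℝ) ≤ M := Nat.cast_nonneg M
        linarith)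
    (ε := η) hη
  set L : ℝ := max (max 1 L1) L0 with hL
  have hL1 : 1 ≤ L := (le_max_left _ _).trans (le_max_left _ _)
  have hL2 : L1 ≤ L := (le_max_right _ _).trans (le_max_left _ _)
  have hev := hL0 L (le_max_right _ _)
  obtain ⟨X, hX⟩ := eventually_atTop.1 hev
  set H : ℝ := Real.exp L with hH
  have hH1 : 1 < H := Real.one_lt_exp_iff.2 (by linarith)
  have hH0 : 0 < H := by linarith
  have hlogH : Real.log H = L := by rw [hH, Real.log_exp]
  obtain ⟨δ, hδ, hδ2⟩ := card_large hp hq hirr hH1 1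
  refine ⟨H, hH1, hlogH ▸ hL2, min δ (Real.exp (-X)), by positivity, fun τ hτ hτ2 => ?_⟩
  have hcard := hδ2 τ hτ (hτ2.trans_le (min_le_left _ _))
  have hx : X ≤ -Real.log τ := by
    have h1 : τ < Real.exp (-X) := hτ2.trans_le (min_le_right _ _)
    have h2 := (Real.log_lt_iff_lt_exp hτ).2 h1
    linarith
  set W := win p q (1 / τ) (H / τ) with hW
  have hne : W.Nonempty := by
    have : (0 : ℝ) < W.card := by linarith
    exact card_pos.1 (by exact_mod_cast this)
  refine ⟨hne, ?_⟩
  -- the real version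
  have hreal : ∀ d : ℝ, τ ≤ d → d ≤ g (-Real.log τ) ^ A * τ → ∀ k : ℕ, 1 ≤ k → k ≤ M →
      ‖∑ n ∈ W, e (k * (n * d))‖ ≤ η * W.card := by
    intro d hd1 hd2 k hk1 hkM
    have hd0 : 0 < d := hτ.trans_le hd1
    rw [hW, sum_win hp hq hirr hH0 hτ hlp hlq (fun n => e (k * (n * d)))]
    have hk1R : (1 : ℝ) ≤ k := by exact_mod_cast hk1
    have h2 := hX _ hx (k * d / τ) (by
      rw [le_div_iff₀ hτ]; nlinarith) (by
      rw [div_le_iff₀ hτ]
      have : (k : ℝ) ≤ M := by exact_mod_cast hkM
      calc (k : ℝ) * d ≤ (M + 1) * (g (-Real.log τ) ^ A * τ) := by gcongr; linarith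
        _ = _ := by ring)
    rw [hlogH]
    have e1 : ∀ u : ℕ × ℕ, (k : ℝ) * d / τ *
        Real.exp (ell (Real.log p) (Real.log q) u - -Real.log τ) =
        k * (Real.exp (ell (Real.log p) (Real.log q) u) * d) := by
      intro u
      rw [sub_neg_eq_add, Real.exp_add, Real.exp_log hτ]
      field_simp
    simp_rw [e1] at h2
    refine h2.trans (le_of_eq ?_)
    rw [card_win hp hq hirr (by positivity) (by positivity)]
    have h3 : Real.log (H / τ) - Real.log (1 / τ) = L := by
      rw [Real.log_div hH0.ne' hτ.ne', Real.log_div one_ne_zero hτ.ne', Real.log_one, hlogH]; ring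
    have h4 : Real.log (1 / τ) = -Real.log τ := by rw [one_div, Real.log_inv]
    rw [h3, h4]
  -- natural frequencies, positive representatives
  have hpos : ∀ d : ℝ, τ ≤ d → d ≤ g (-Real.log τ) ^ A * τ → ∀ m : ℤ, m ≠ 0 → |m| ≤ M →
      ‖∑ n ∈ W, (fourier m (n • ((d : ℝ) : T)) : ℂ)‖ ≤ η * W.card := by
    intro d hd1 hd2 m hm hmM
    have hna : 1 ≤ m.natAbs := Int.natAbs_pos.2 hm
    have hnM : m.natAbs ≤ M := by
      have : ((m.natAbs : ℕ) : ℤ) ≤ M := by rw [Int.natCast_natAbs]; exact hmM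
      exact_mod_cast this
    have h0 := hreal d hd1 hd2 m.natAbs hna hnM
    rcases Int.natAbs_eq m with h | h
    · refine le_trans (le_of_eq ?_) h0
      congr 1
      refine Finset.sum_congr rfl fun n _ => ?_
      rw [← AddCircle.coe_nsmul, fourier_e, nsmul_eq_mul]
      congr 2
      rw [h]; simp
    · refine le_trans (le_of_eq ?_) h0
      rw [← RCLike.norm_conj, map_sum]
      congr 1
      refine Finset.sum_congr rfl fun n _ => ?_
      rw [← AddCircle.coe_nsmul, fourier_e, nsmul_eq_mul, conj_e]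
      congr 1
      have : (m : ℝ) = -((m.natAbs : ℕ) : ℝ) := by
        rw [h]; simp
      rw [this]; ring
  intro z hz1 hz2 m hm hmM
  rcases eq_or_neg z with hz | hz
  · have := hpos ‖z‖ hz1 hz2 m hm hmM
    rwa [← hz] at this
  · have := hpos ‖z‖ hz1 hz2 (-m) (neg_ne_zero.2 hm) (by rwa [abs_neg])
    refine le_trans (le_of_eq ?_) this
    congr 1
    refine Finset.sum_congr rfl fun n _ => ?_
    conv_lhs => rw [hz]
    rw [smul_neg, fourier_apply, fourier_apply, smul_neg, neg_smul]


end Pool.Agent.H42UP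

open MeasureTheory Filter Topology Set
open scoped ENNReal

namespace Pool.Agent.H42UP

open Pool.Agent.H806.Gap
open Pool.Agent.W764.FB (T EssInj hh)
open Pool.Agent.W764.HL (win mem_win)
open Metric (closedBall mem_closedBall)

/-- **The criterion at a single scale**, for a general gauge. -/
theorem single_scale_win {p q : ℕ} (hp : 2 ≤ p) (hq : 2 ≤ q)
    (hirr : Irrational (Real.log p / Real.log q)) {g : ℝ → ℝ}
    (hg : Tendsto g atTop atTop) (hdio : Dio (Real.log p) (Real.log q) g) (A : ℕ)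
    {f : T → ℝ} (hf : Continuous f) {ε : ℝ} (hε : 0 < ε) (L1 : ℝ) :
    ∃ δ : ℝ, 0 < δ ∧ ∃ H : ℝ, 1 < H ∧ L1 ≤ Real.log H ∧ ∃ r0 : ℝ, 0 < r0 ∧ ∀ r s : ℝ, 0 < s →
      s ≤ r → r < r0 → r ≤ g (-Real.log s) ^ A * s → (win p q (1 / s) (H / s)).Nonempty ∧
        ∀ μ : Measure T, IsProbabilityMeasure μ → ∀ E : Set T, MeasurableSet E →
          (∀ x ∈ E, μ.real (closedBall x s) ≤ δ * μ.real (closedBall x r)) →
          |∫ y in E, AW (win p q (1 / s) (H / s)) f y ∂μ - μ.real E * ∫ y, f y ∂(volume : Measure T)| ≤ ε := by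
  classical
  obtain ⟨F, c, hFc⟩ := exists_trig hf (ε := ε / 4) (by positivity)
  set C : ℝ := ∑ m ∈ F, ‖c m‖ with hC
  have hC0 : 0 ≤ C := Finset.sum_nonneg fun m _ => norm_nonneg _
  set δ : ℝ := (ε / (6 * (C + 1))) ^ 2 / 2 with hδ
  have hδ0 : 0 < δ := by positivity
  have hδs : 3 * √(δ + δ) * C ≤ ε / 2 := by
    have e1 : δ + δ = (ε / (6 * (C + 1))) ^ 2 := by rw [hδ]; ring
    rw [e1, Real.sqrt_sq (by positivity)]
    have e2 : 3 * (ε / (6 * (C + 1))) * C = ε / 2 * (C / (C + 1)) := by
      field_simp; ring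
    rw [e2]
    have e3 : C / (C + 1) ≤ 1 := by
      rw [div_le_one (by positivity)]; linarith
    calc ε / 2 * (C / (C + 1)) ≤ ε / 2 * 1 := by gcongr
      _ = ε / 2 := mul_one _
  set M : ℕ := F.sup fun m => m.natAbs with hM
  obtain ⟨H, hH, hHL, τ0, hτ0, h⟩ := exp_win_long hp hq hirr hg hdio A M hδ0 L1
  refine ⟨δ, hδ0, H, hH, hHL, min τ0 1, lt_min hτ0 one_pos, fun r s hs hsr hr hrs => ?_⟩
  have hr0 : 0 < r := hs.trans_le hsr
  obtain ⟨hne, hW⟩ := h s hs (hsr.trans_lt (hr.trans_le (min_le_left _ _)))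
  set W := win p q (1 / s) (H / s) with hWd
  have hWpos : (0 : ℝ) < W.card := by exact_mod_cast Finset.card_pos.2 hne
  refine ⟨hne, fun μ hμ E hE hEδ => ?_⟩
  -- the characters
  have hchar : ∀ m ∈ F, m ≠ 0 → ‖∫ y in E, ES W m y ∂μ‖ ≤ 3 * √(δ + δ) * W.card := by
    intro m hmF hm
    refine local_bound μ hE W m hr0 (hr.le.trans (min_le_right _ _)) hδ0.le hδ0.le (τ := s) ?_ hEδ
    intro z hz1 hz2
    refine hW z hz1 (hz2.trans hrs) m hm ?_
    have : m.natAbs ≤ M := Finset.le_sup (f := fun m : ℤ => m.natAbs) hmF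
    rw [← Int.natCast_natAbs]
    exact_mod_cast this
  set P : T → ℂ := fun y => ∑ m ∈ F, c m * (fourier m y : ℂ) with hP
  set AP : T → ℂ := fun y => (W.card : ℂ)⁻¹ * ∑ n ∈ W, P (n • y) with hAP
  have hAPeq : ∀ y, AP y = (W.card : ℂ)⁻¹ * ∑ m ∈ F, c m * ES W m y := by
    intro y
    rw [hAP, hP]
    simp only [ES]
    rw [Finset.sum_comm]
    simp_rw [Finset.mul_sum]
  have hdiff : ∀ y, ‖((AW W f y : ℝ) : ℂ) - AP y‖ ≤ ε / 4 := by
    intro y
    have e1 : ((AW W f y : ℝ) : ℂ) - AP y = (W.card : ℂ)⁻¹ *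
        ∑ n ∈ W, ((f (n • y) : ℂ) - P (n • y)) := by
      rw [hAP, Finset.sum_sub_distrib, mul_sub]
      unfold AW
      push_cast
      rfl
    rw [e1, norm_mul, norm_inv, Complex.norm_natCast]
    calc (W.card : ℝ)⁻¹ * ‖∑ n ∈ W, ((f (n • y) : ℂ) - P (n • y))‖
        ≤ (W.card : ℝ)⁻¹ * ∑ n ∈ W, (ε / 4) := by
          gcongr
          exact (norm_sum_le _ _).trans (Finset.sum_le_sum fun n _ => hFc _)
      _ = ε / 4 := by
          rw [Finset.sum_const, nsmul_eq_mul]
          field_simp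
  -- integrals
  have hESint : ∀ m, Integrable (ES W m) (μ.restrict E) := fun m =>
    Integrable.of_bound (continuous_ES W m).aestronglyMeasurable W.card
      (Eventually.of_forall fun y => norm_ES W m y)
  have hAPint : Integrable AP (μ.restrict E) := by
    have : AP = fun y => (W.card : ℂ)⁻¹ * ∑ m ∈ F, c m * ES W m y := funext hAPeq
    rw [this]
    exact (integrable_finsetSum _ fun m _ => (hESint m).const_mul _).const_mul _
  have hAWint : Integrable (fun y => ((AW W f y : ℝ) : ℂ)) (μ.restrict E) := by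
    have hcont : Continuous fun y => ((AW W f y : ℝ) : ℂ) :=
      Complex.continuous_ofReal.comp (continuous_AW W hf)
    obtain ⟨C', hC'⟩ := isCompact_univ.exists_bound_of_continuousOn hcont.continuousOn
    exact Integrable.of_bound hcont.aestronglyMeasurable C'
      (Eventually.of_forall fun y => hC' y (mem_univ _))
  set c0 : ℂ := if 0 ∈ F then c 0 else 0 with hc0
  have hES0 : ∀ y, ES W 0 y = W.card := by
    intro y
    unfold ES
    simp
  have h1 : ‖∫ y in E, AP y ∂μ - μ.real E * c0‖ ≤ ε / 2 := by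
    have e1 : ∫ y in E, AP y ∂μ = (W.card : ℂ)⁻¹ * ∑ m ∈ F, c m * ∫ y in E, ES W m y ∂μ := by
      simp_rw [hAPeq]
      rw [integral_const_mul, integral_finsetSum _ fun m _ => (hESint m).const_mul _]
      simp_rw [integral_const_mul]
    have e2 : (μ.real E : ℂ) * c0 = (W.card : ℂ)⁻¹ * ∑ m ∈ F, if m = 0 then
        c m * ∫ y in E, ES W m y ∂μ else 0 := by
      rw [Finset.sum_ite_eq' F 0 fun m => c m * ∫ y in E, ES W m y ∂μ]
      rw [hc0]
      split_ifs with h0
      · simp_rw [hES0]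
        rw [integral_const, measureReal_restrict_apply_univ, Complex.real_smul]
        have : (W.card : ℂ) ≠ 0 := by exact_mod_cast (Finset.card_pos.2 hne).ne'
        field_simp
      · simp
    rw [e1, e2, ← mul_sub, ← Finset.sum_sub_distrib, norm_mul, norm_inv, Complex.norm_natCast]
    calc (W.card : ℝ)⁻¹ * ‖∑ m ∈ F, (c m * ∫ y in E, ES W m y ∂μ -
          if m = 0 then c m * ∫ y in E, ES W m y ∂μ else 0)‖
        ≤ (W.card : ℝ)⁻¹ * ∑ m ∈ F, ‖c m‖ * (3 * √(δ + δ) * W.card) := by
          gcongr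
          refine (norm_sum_le _ _).trans (Finset.sum_le_sum fun m hm => ?_)
          split_ifs with h0
          · rw [sub_self, norm_zero]; positivity
          · rw [sub_zero, norm_mul]
            gcongr
            exact hchar m hm h0
      _ = 3 * √(δ + δ) * C := by
          rw [← Finset.sum_mul, ← hC]
          field_simp
      _ ≤ ε / 2 := hδs
  have h2 : ‖∫ y in E, ((AW W f y : ℝ) : ℂ) ∂μ - ∫ y in E, AP y ∂μ‖ ≤ ε / 4 := by
    rw [← integral_sub hAWint hAPint]
    refine (norm_integral_le_of_norm_le_const (C := ε / 4) (Eventually.of_forall hdiff)).trans ?_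
    rw [measureReal_restrict_apply_univ]
    have : μ.real E ≤ 1 := measureReal_le_one
    nlinarith
  have h3 : ‖(c0 : ℂ) - ((∫ y, f y ∂(volume : Measure T) : ℝ) : ℂ)‖ ≤ ε / 4 := by
    have e1 : ∫ y, P y ∂(volume : Measure T) = c0 := by
      have e4 : ∀ m ∈ F, Integrable (fun y : T => c m * (fourier m y : ℂ)) (volume : Measure T) := by
        intro m _
        have hcm : Continuous fun y : T => c m * (fourier m y : ℂ) :=
          continuous_const.mul (map_continuous (fourier m))
        exact Integrable.of_bound hcm.aestronglyMeasurable ‖c m‖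
          (Eventually.of_forall fun y => by rw [norm_mul, norm_fourier_one, mul_one])
      simp only [hP]
      rw [integral_finsetSum _ e4, hc0]
      have e3 : ∀ m : ℤ, ∫ y, c m * (fourier m y : ℂ) ∂(volume : Measure T) =
          if m = 0 then c m else 0 := by
        intro m
        rw [integral_const_mul]
        split_ifs with h0
        · subst h0
          simp
        · rw [Pool.Agent.H847R3.XpXq.integral_fourier_zero h0, mul_zero]
      simp_rw [e3]
      rw [Finset.sum_ite_eq' F 0 c]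
    have hfint : Integrable (fun y => (f y : ℂ)) (volume : Measure T) := by
      have hcont : Continuous fun y => (f y : ℂ) := Complex.continuous_ofReal.comp hf
      obtain ⟨C', hC'⟩ := isCompact_univ.exists_bound_of_continuousOn hcont.continuousOn
      exact Integrable.of_bound hcont.aestronglyMeasurable C'
        (Eventually.of_forall fun y => hC' y (mem_univ _))
    have hPc : Continuous P := continuous_finsetSum _ fun m _ =>
      continuous_const.mul (map_continuous (fourier m))
    have hPint : Integrable P (volume : Measure T) := by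
      obtain ⟨C', hC'⟩ := isCompact_univ.exists_bound_of_continuousOn hPc.continuousOn
      exact Integrable.of_bound hPc.aestronglyMeasurable C'
        (Eventually.of_forall fun y => hC' y (mem_univ _))
    rw [← e1, ← integral_complex_ofReal, norm_sub_rev, ← integral_sub hfint hPint]
    refine (norm_integral_le_of_norm_le_const (C := ε / 4) (Eventually.of_forall hFc)).trans ?_
    simp
  have h4 : ((∫ y in E, AW W f y ∂μ - μ.real E * ∫ y, f y ∂(volume : Measure T) : ℝ) : ℂ) =
      (∫ y in E, ((AW W f y : ℝ) : ℂ) ∂μ - ∫ y in E, AP y ∂μ) +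
      (∫ y in E, AP y ∂μ - μ.real E * c0) +
      μ.real E * (c0 - ((∫ y, f y ∂(volume : Measure T) : ℝ) : ℂ)) := by
    rw [integral_complex_ofReal]
    push_cast
    ring
  have h5 : ‖((∫ y in E, AW W f y ∂μ - μ.real E * ∫ y, f y ∂(volume : Measure T) : ℝ) : ℂ)‖ ≤ ε := by
    rw [h4]
    refine (norm_add₃_le).trans ?_
    have h6 : ‖(μ.real E : ℂ) * (c0 - ((∫ y, f y ∂(volume : Measure T) : ℝ) : ℂ))‖ ≤ ε / 4 := by
      rw [norm_mul, Complex.norm_real, Real.norm_of_nonneg measureReal_nonneg]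
      have : μ.real E ≤ 1 := measureReal_le_one
      calc μ.real E * _ ≤ 1 * (ε / 4) := by gcongr
        _ = _ := one_mul _
    linarith
  rwa [Complex.norm_real, Real.norm_eq_abs] at h5


end Pool.Agent.H42UP
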